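import Pool.Agent.H36.HK.Tools

/-! # MP_e94f6f_an, module BET: existence of the kernel (bridge expansion) -/

open MeasureTheory Set Filter Topology ProbabilityTheory
open scoped NNReal

namespace Pool.Agent.H36.HK

open Pool.Agent.H96.HK

/-- the product probability measure -/
noncomputable def mu : Measure (ℝ × ℝ) := (volume.restrict (Ioc (0 : ℝ) 1)).prod (gaussianReal 0 1)

instance : IsProbabilityMeasure (volume.restrict (Ioc (0 : ℝ) 1)) := ⟨by simp⟩

instance : IsProbabilityMeasure mu := by unfold mu; infer_instance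

lemma mu_ae : ∀ᵐ z ∂mu, z.1 ∈ Ioc (0 : ℝ) 1 := by
  unfold mu
  have h1 : ∀ᵐ x ∂(volume.restrict (Ioc (0 : ℝ) 1)), x ∈ Ioc (0 : ℝ) 1 :=
    ae_restrict_mem measurableSet_Ioc
  exact Measure.quasiMeasurePreserving_fst.ae h1

noncomputable def TT (V : ℝ → ℝ) (β : ℝ → ℝ → ℝ → ℝ) (t s r : ℝ) : ℝ :=
  -t * ∫ z : ℝ × ℝ, V (bp t s r z.1 z.2) * β (z.1 * t) (bp t s r z.1 z.2) r ∂mu

noncomputable def be (V : ℝ → ℝ) : ℕ → ℝ → ℝ → ℝ → ℝ
  | 0 => fun _ _ _ => 1
  | n + 1 => TT V (be V n)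

/-- continuity of functions of three variables -/
abbrev C3 (β : ℝ → ℝ → ℝ → ℝ) : Prop := Continuous (fun z : ℝ × ℝ × ℝ => β z.1 z.2.1 z.2.2)

lemma integrand_cont (V : ℝ → ℝ) (hV : Continuous V) (β : ℝ → ℝ → ℝ → ℝ) (hβ : C3 β) :
    Continuous (fun w : (ℝ × ℝ × ℝ) × (ℝ × ℝ) =>
      V (bp w.1.1 w.1.2.1 w.1.2.2 w.2.1 w.2.2) *
        β (w.2.1 * w.1.1) (bp w.1.1 w.1.2.1 w.1.2.2 w.2.1 w.2.2) w.1.2.2) := by
  have h1 : Continuous (fun w : (ℝ × ℝ × ℝ) × (ℝ × ℝ) =>
      bp w.1.1 w.1.2.1 w.1.2.2 w.2.1 w.2.2) := by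
    unfold bp
    fun_prop
  have h2 : Continuous (fun w : (ℝ × ℝ × ℝ) × (ℝ × ℝ) =>
      (w.2.1 * w.1.1, bp w.1.1 w.1.2.1 w.1.2.2 w.2.1 w.2.2, w.1.2.2)) := by
    refine Continuous.prodMk (by fun_prop) (Continuous.prodMk h1 (by fun_prop))
  exact (hV.comp h1).mul (hβ.comp h2)

lemma TT_cont (V : ℝ → ℝ) (B : ℝ) (hV : Continuous V) (hB : ∀ s, |V s| ≤ B)
    (β : ℝ → ℝ → ℝ → ℝ) (hβ : C3 β) (G : ℝ → ℝ) (hG : MonotoneOn G (Ici 0))
    (hb : ∀ t s r, |β t s r| ≤ G |t|) : C3 (TT V β) := by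
  have hB0 : 0 ≤ B := (abs_nonneg _).trans (hB 0)
  refine Continuous.mul (by fun_prop) ?_
  rw [continuous_iff_continuousAt]
  intro z₀
  refine continuousAt_of_dominated (bound := fun _ => B * G (|z₀.1| + 1)) ?_ ?_
    (integrable_const _) ?_
  · refine Eventually.of_forall fun z => ?_
    have h1 := (integrand_cont V hV β hβ).comp (Continuous.prodMk (continuous_const (y := z))
      continuous_id)
    exact h1.aestronglyMeasurable
  · have h1 : ∀ᶠ z : ℝ × ℝ × ℝ in 𝓝 z₀, |z.1| < |z₀.1| + 1 := by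
      have : Continuous (fun z : ℝ × ℝ × ℝ => |z.1|) := by fun_prop
      exact this.continuousAt.eventually (eventually_lt_nhds (by linarith))
    filter_upwards [h1] with z hz
    filter_upwards [mu_ae] with w hw
    rw [norm_mul, Real.norm_eq_abs, Real.norm_eq_abs]
    have h2 : |w.1 * z.1| ≤ |z₀.1| + 1 := by
      rw [abs_mul, abs_of_pos hw.1]
      nlinarith [abs_nonneg z.1, hw.2]
    refine mul_le_mul (hB _) ((hb _ _ _).trans (hG (mem_Ici.2 (abs_nonneg _)) ?_ h2)) (abs_nonneg _) hB0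
    exact mem_Ici.2 (add_nonneg (abs_nonneg _) zero_le_one)
  · refine Eventually.of_forall fun w => ?_
    have h1 := (integrand_cont V hV β hβ).comp (Continuous.prodMk continuous_id
      (continuous_const (y := w)))
    exact h1.continuousAt

lemma mu_pow (n : ℕ) : ∫ z : ℝ × ℝ, z.1 ^ n ∂mu = 1 / (n + 1) := by
  unfold mu
  rw [integral_fun_fst (fun x : ℝ => x ^ n)]
  simp only [probReal_univ, one_smul]
  rw [← intervalIntegral.integral_of_le zero_le_one, integral_pow]
  simp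

lemma be_props (V : ℝ → ℝ) (B : ℝ) (hV : Continuous V) (hB : ∀ s, |V s| ≤ B) (n : ℕ) :
    C3 (be V n) ∧ ∀ t s r, |be V n t s r| ≤ (B * |t|) ^ n / n.factorial := by
  have hB0 : 0 ≤ B := (abs_nonneg _).trans (hB 0)
  induction n with
  | zero =>
    refine ⟨continuous_const, fun t s r => ?_⟩
    simp [be]
  | succ n ih =>
    obtain ⟨h1, h2⟩ := ih
    refine ⟨TT_cont V B hV hB (be V n) h1 (fun x => (B * x) ^ n / n.factorial) ?_ h2, ?_⟩
    · intro x hx y hy hxy
      have hx' : (0 : ℝ) ≤ x := hx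
      simp only
      gcongr
    · intro t s r
      show |TT V (be V n) t s r| ≤ _
      unfold TT
      rw [abs_mul, abs_neg]
      have h3 : ‖∫ z : ℝ × ℝ, V (bp t s r z.1 z.2) * be V n (z.1 * t) (bp t s r z.1 z.2) r ∂mu‖ ≤
          ∫ z : ℝ × ℝ, B * ((B * |t|) ^ n / n.factorial) * z.1 ^ n ∂mu := by
        refine norm_integral_le_of_norm_le ?_ ?_
        · refine Integrable.const_mul ?_ _
          refine (integrable_const (1 : ℝ)).mono' ?_ ?_
          · exact (by fun_prop : Continuous fun z : ℝ × ℝ => z.1 ^ n).aestronglyMeasurable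
          · filter_upwards [mu_ae] with z hz
            rw [Real.norm_eq_abs, abs_of_nonneg (pow_nonneg hz.1.le _)]
            exact pow_le_one₀ hz.1.le hz.2
        · filter_upwards [mu_ae] with z hz
          rw [norm_mul, Real.norm_eq_abs, Real.norm_eq_abs]
          have h4 := h2 (z.1 * t) (bp t s r z.1 z.2) r
          rw [abs_mul, abs_of_pos hz.1] at h4
          have h5 : (B * (z.1 * |t|)) ^ n / n.factorial = (B * |t|) ^ n / n.factorial * z.1 ^ n := by
            rw [show B * (z.1 * |t|) = B * |t| * z.1 by ring, mul_pow]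
            ring
          rw [h5] at h4
          calc |V (bp t s r z.1 z.2)| * |be V n (z.1 * t) (bp t s r z.1 z.2) r|
              ≤ B * ((B * |t|) ^ n / n.factorial * z.1 ^ n) :=
                mul_le_mul (hB _) h4 (abs_nonneg _) hB0
            _ = _ := by ring
      rw [integral_const_mul, mu_pow, Real.norm_eq_abs] at h3
      refine (mul_le_mul_of_nonneg_left h3 (abs_nonneg t)).trans (le_of_eq ?_)
      rw [Nat.factorial_succ]
      push_cast
      have : (n.factorial : ℝ) ≠ 0 := by positivity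
      have h6 : (n : ℝ) + 1 ≠ 0 := by positivity
      field_simp
      ring

/-- the sum of the expansion -/
noncomputable def SS (V : ℝ → ℝ) (t s r : ℝ) : ℝ := ∑' n, be V n t s r

lemma be_hasSum_exp (B t : ℝ) :
    HasSum (fun n : ℕ => (B * |t|) ^ n / n.factorial) (Real.exp (B * |t|)) := by
  rw [Real.exp_eq_exp_ℝ]
  exact NormedSpace.expSeries_div_hasSum_exp (B * |t|)

lemma be_summable (V : ℝ → ℝ) (B : ℝ) (hV : Continuous V) (hB : ∀ s, |V s| ≤ B) (t s r : ℝ) :
    Summable (fun n => be V n t s r) :=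
  Summable.of_norm_bounded (be_hasSum_exp B t).summable
    (fun n => by rw [Real.norm_eq_abs]; exact (be_props V B hV hB n).2 t s r)

lemma SS_bound (V : ℝ → ℝ) (B : ℝ) (hV : Continuous V) (hB : ∀ s, |V s| ≤ B) (t s r : ℝ) :
    |SS V t s r| ≤ Real.exp (B * |t|) := by
  rw [← Real.norm_eq_abs]
  exact tsum_of_norm_bounded (be_hasSum_exp B t)
    (fun n => by rw [Real.norm_eq_abs]; exact (be_props V B hV hB n).2 t s r)

lemma SS_cont (V : ℝ → ℝ) (B : ℝ) (hV : Continuous V) (hB : ∀ s, |V s| ≤ B) : C3 (SS V) := by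
  have hB0 : 0 ≤ B := (abs_nonneg _).trans (hB 0)
  refine continuous_iff_continuousAt.2 fun z₀ => ?_
  have h1 : ContinuousOn (fun z : ℝ × ℝ × ℝ => ∑' n, be V n z.1 z.2.1 z.2.2)
      {z | |z.1| < |z₀.1| + 1} := by
    refine continuousOn_tsum (u := fun n : ℕ => (B * |(|z₀.1| + 1)|) ^ n / n.factorial)
      (fun n => (be_props V B hV hB n).1.continuousOn) (be_hasSum_exp B _).summable ?_
    intro n z hz
    rw [Real.norm_eq_abs]
    refine ((be_props V B hV hB n).2 _ _ _).trans ?_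
    have h2 : |z.1| ≤ |(|z₀.1| + 1)| := by
      rw [abs_of_nonneg (by positivity : (0 : ℝ) ≤ |z₀.1| + 1)]
      exact (show |z.1| < |z₀.1| + 1 from hz).le
    gcongr
  refine h1.continuousAt ?_
  have h3 : Continuous (fun z : ℝ × ℝ × ℝ => |z.1|) := by fun_prop
  exact (isOpen_Iio.preimage h3).mem_nhds (by simp)

lemma SS_eq (V : ℝ → ℝ) (B : ℝ) (hV : Continuous V) (hB : ∀ s, |V s| ≤ B) (t s r : ℝ) :
    SS V t s r = 1 + TT V (SS V) t s r := by
  have hB0 : 0 ≤ B := (abs_nonneg _).trans (hB 0)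
  have h1 : SS V t s r = be V 0 t s r + ∑' n, be V (n + 1) t s r :=
    (be_summable V B hV hB t s r).tsum_eq_zero_add
  rw [h1]
  congr 1
  show ∑' n, TT V (be V n) t s r = TT V (SS V) t s r
  unfold TT
  rw [tsum_mul_left]
  congr 1
  have hcont : ∀ n, Continuous (fun z : ℝ × ℝ =>
      V (bp t s r z.1 z.2) * be V n (z.1 * t) (bp t s r z.1 z.2) r) := fun n =>
    (integrand_cont V hV (be V n) (be_props V B hV hB n).1).comp
      (Continuous.prodMk (continuous_const (y := (t, s, r))) continuous_id)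
  have hbd : ∀ n, ∀ᵐ z ∂mu, ‖V (bp t s r z.1 z.2) * be V n (z.1 * t) (bp t s r z.1 z.2) r‖ ≤
      B * ((B * |t|) ^ n / n.factorial) := by
    intro n
    filter_upwards [mu_ae] with z hz
    rw [norm_mul, Real.norm_eq_abs, Real.norm_eq_abs]
    refine mul_le_mul (hB _) (((be_props V B hV hB n).2 _ _ _).trans ?_) (abs_nonneg _) hB0
    have h2 : |z.1 * t| ≤ |t| := by
      rw [abs_mul, abs_of_pos hz.1]
      nlinarith [abs_nonneg t, hz.2]
    gcongr
  have hint : ∀ n, Integrable (fun z : ℝ × ℝ =>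
      V (bp t s r z.1 z.2) * be V n (z.1 * t) (bp t s r z.1 z.2) r) mu := fun n =>
    (integrable_const _).mono' (hcont n).aestronglyMeasurable (hbd n)
  have h3 := hasSum_integral_of_summable_integral_norm hint (by
    refine Summable.of_nonneg_of_le (fun n => integral_nonneg fun z => norm_nonneg _) (fun n => ?_)
      ((be_hasSum_exp B t).summable.mul_left B)
    calc ∫ z, ‖V (bp t s r z.1 z.2) * be V n (z.1 * t) (bp t s r z.1 z.2) r‖ ∂mu
        ≤ ∫ _z, B * ((B * |t|) ^ n / n.factorial) ∂mu :=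
          integral_mono_ae (hint n).norm (integrable_const _) (hbd n)
      _ = _ := by simp)
  rw [h3.tsum_eq]
  congr 1
  ext z
  rw [tsum_mul_left]
  rfl

theorem bet : T_BET := by
  intro V B hV hB
  refine ⟨fun t s r => gg t (s - r) * SS V t s r, ?_, ?_, ?_⟩
  · refine ContinuousOn.mul ?_ (SS_cont V B hV hB).continuousOn
    have h1 : ContinuousOn (fun z : ℝ × ℝ × ℝ => (z.1, z.2.1 - z.2.2)) (Ioi 0 ×ˢ univ) := by
      fun_prop
    exact gg_cont.comp h1 fun z hz => ⟨hz.1, mem_univ _⟩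
  · intro t ht s r
    rw [abs_mul, abs_of_pos (gg_pos' ht _), mul_comm]
    have h1 := SS_bound V B hV hB t s r
    rw [abs_of_pos ht] at h1
    exact mul_le_mul_of_nonneg_right h1 (gg_pos' ht _).le
  · intro t ht s r
    have h1 : ∀ τ ∈ Ioo (0 : ℝ) t, ∫ x, gg (t - τ) (s - x) * V x * (gg τ (x - r) * SS V τ x r) =
        gg t (s - r) * ∫ ξ, V (bp t s r (τ / t) ξ) * SS V (τ / t * t) (bp t s r (τ / t) ξ) r
          ∂(gaussianReal 0 1) := by
      intro τ hτ
      rw [← gg_bridge hτ.1 hτ.2 s r (fun x => V x * SS V (τ / t * t) x r)]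
      congr 1
      ext x
      rw [div_mul_cancel₀ _ (ne_of_gt ht)]
      ring
    have h2 : ∫ τ in (0 : ℝ)..t, ∫ x, gg (t - τ) (s - x) * V x * (gg τ (x - r) * SS V τ x r) =
        ∫ τ in (0 : ℝ)..t, gg t (s - r) * ∫ ξ, V (bp t s r (τ / t) ξ) *
          SS V (τ / t * t) (bp t s r (τ / t) ξ) r ∂(gaussianReal 0 1) := by
      rw [intervalIntegral.integral_of_le ht.le, intervalIntegral.integral_of_le ht.le,
        ← setIntegral_congr_set Ioo_ae_eq_Ioc, ← setIntegral_congr_set Ioo_ae_eq_Ioc]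
      exact setIntegral_congr_fun measurableSet_Ioo h1
    rw [h2, intervalIntegral.integral_const_mul,
      intervalIntegral.integral_comp_div (fun σ => ∫ ξ, V (bp t s r σ ξ) *
          SS V (σ * t) (bp t s r σ ξ) r ∂(gaussianReal 0 1)) (ne_of_gt ht)]
    rw [zero_div, div_self (ne_of_gt ht)]
    have hint : Integrable (fun z : ℝ × ℝ =>
        V (bp t s r z.1 z.2) * SS V (z.1 * t) (bp t s r z.1 z.2) r) mu := by
      refine (integrable_const (B * Real.exp (B * |t|))).mono' ?_ ?_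
      · exact ((integrand_cont V hV (SS V) (SS_cont V B hV hB)).comp
          (Continuous.prodMk (continuous_const (y := (t, s, r))) continuous_id)).aestronglyMeasurable
      · have hB0 : 0 ≤ B := (abs_nonneg _).trans (hB 0)
        filter_upwards [mu_ae] with z hz
        rw [norm_mul, Real.norm_eq_abs, Real.norm_eq_abs]
        refine mul_le_mul (hB _) ((SS_bound V B hV hB _ _ _).trans ?_) (abs_nonneg _) hB0
        apply Real.exp_le_exp.2
        refine mul_le_mul_of_nonneg_left ?_ hB0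
        rw [abs_mul, abs_of_pos hz.1]
        nlinarith [abs_nonneg t, hz.2]
    have h3 : ∫ σ in (0 : ℝ)..1, (∫ ξ, V (bp t s r σ ξ) * SS V (σ * t) (bp t s r σ ξ) r
        ∂(gaussianReal 0 1)) = ∫ z : ℝ × ℝ,
          V (bp t s r z.1 z.2) * SS V (z.1 * t) (bp t s r z.1 z.2) r ∂mu := by
      unfold mu at hint ⊢
      rw [integral_prod _ hint, intervalIntegral.integral_of_le zero_le_one]
    rw [h3]
    have h4 := SS_eq V B hV hB t s r
    unfold TT at h4
    rw [h4, smul_eq_mul]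
    ring

end Pool.Agent.H36.HK
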