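import Pool.Agent.H36.HK.SYM

/-! # MP_e94f6f_an, module MLK: the kernel is a mild solution -/

open MeasureTheory Set Filter Topology ProbabilityTheory

namespace Pool.Agent.H36.HK

open Pool.Agent.H96.HK

lemma cont_g1 (s : ℝ) : ContinuousOn (fun z : ℝ × ℝ => gg z.1 (s - z.2)) (Ioi 0 ×ˢ univ) := by
  have h1 : ContinuousOn (fun z : ℝ × ℝ => (z.1, s - z.2)) (Ioi 0 ×ˢ univ) := by fun_prop
  exact gg_cont.comp h1 fun z hz => ⟨hz.1, mem_univ _⟩

/-- the mild identity from the Duhamel formula started at time `0` -/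
lemma mild_of_duh {J : ℝ → ℝ → ℝ} (hJ : Har J) {V : ℝ → ℝ} (hV : Continuous V) {B : ℝ}
    (hB : ∀ s, |V s| ≤ B) {w i : ℝ → ℝ → ℝ}
    (hw : ContinuousOn (fun z : ℝ × ℝ => w z.1 z.2) (Ioi 0 ×ˢ univ))
    (hw' : ∀ t > 0, ∃ C, ∀ τ ∈ Ioo 0 t, ∀ x, |w τ x| ≤ C * J τ x)
    (hi : ∀ τ t, 0 < τ → τ < t → ∀ s, Integrable (fun x => gg (t - τ) (s - x) * i τ x) ∧
      ∫ x, gg (t - τ) (s - x) * i τ x = i t s)
    (hd : ∀ t > 0, ∀ s, w t s = i t s - ∫ ρ in Ioo 0 t, ∫ x, gg (t - ρ) (s - x) * V x * w ρ x) :
    Mild1 V 0 w := by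
  refine ⟨hw, fun τ t hτ ht s => ?_⟩
  have ht0 : 0 < t := hτ.trans ht
  obtain ⟨C, hC⟩ := hw' t ht0
  have bg : ∀ ρ ∈ Ioo 0 t, ∀ x, |gg ρ (s - x)| ≤ 1 * gg ρ (s - x) := by
    intro τ hτ x
    rw [one_mul, abs_of_pos (gg_pos' hτ.1 _)]
  have hB0 : 0 ≤ B := (abs_nonneg _).trans (hB 0)
  -- integrability on (0,t)
  have I1 := dom2 hJ ht0 s hV hB (A := fun ρ x => gg ρ (s - x)) (w := w) (cont_g1 s) hw bg hC
  -- triple integral
  set F : ℝ → ℝ × ℝ → ℝ := fun x z => gg (t - τ) (s - x) * (gg (τ - z.1) (x - z.2) * V z.2 * w z.1 z.2)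
    with hF
  have hFi : Integrable (Function.uncurry F) (volume.prod (nu τ)) := by
    have hUo : IsOpen ((univ : Set ℝ) ×ˢ (Ioo (0 : ℝ) τ ×ˢ (univ : Set ℝ))) :=
      isOpen_univ.prod (isOpen_strip τ)
    have hco : ContinuousOn (Function.uncurry F)
        ((univ : Set ℝ) ×ˢ (Ioo (0 : ℝ) τ ×ˢ (univ : Set ℝ))) := by
      refine ContinuousOn.mul ?_ (ContinuousOn.mul (ContinuousOn.mul ?_
        (hV.comp_continuousOn (by fun_prop))) ?_)
      · exact gg_cont.comp (f := fun z : ℝ × (ℝ × ℝ) => (t - τ, s - z.1)) (by fun_prop)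
          fun z hz => ⟨sub_pos.2 ht, mem_univ _⟩
      · exact gg_cont.comp (f := fun z : ℝ × (ℝ × ℝ) => (τ - z.2.1, z.1 - z.2.2)) (by fun_prop)
          fun z hz => ⟨sub_pos.2 hz.2.1.2, mem_univ _⟩
      · exact hw.comp (f := fun z : ℝ × (ℝ × ℝ) => (z.2.1, z.2.2)) (by fun_prop)
          fun z hz => ⟨hz.2.1.1, mem_univ _⟩
    have hae : ∀ᵐ z : ℝ × (ℝ × ℝ) ∂((volume : Measure ℝ).prod (nu τ)), z.2.1 ∈ Ioo (0 : ℝ) τ :=
      Measure.quasiMeasurePreserving_snd.ae (nu_ae τ)
    have hm : AEStronglyMeasurable (Function.uncurry F) (volume.prod (nu τ)) := by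
      refine ⟨_, (meas_ind hUo hco).stronglyMeasurable, ?_⟩
      filter_upwards [hae] with z hz
      rw [indicator_of_mem]
      exact ⟨mem_univ _, hz, mem_univ _⟩
    have hsl : ∀ x, Integrable (fun z : ℝ × ℝ => F x z) (nu τ) := by
      intro x
      have bg' : ∀ ρ ∈ Ioo 0 τ, ∀ y, |gg ρ (x - y)| ≤ 1 * gg ρ (x - y) := by
        intro τ hτ y
        rw [one_mul, abs_of_pos (gg_pos' hτ.1 _)]
      exact (dom2 hJ hτ x hV hB (A := fun ρ y => gg ρ (x - y)) (w := w) (cont_g1 x) hw bg'
        (fun ρ hρ y => hC ρ ⟨hρ.1, hρ.2.trans ht⟩ y)).const_mul _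
    rw [integrable_prod_iff hm]
    refine ⟨Eventually.of_forall hsl, ?_⟩
    refine ((hJ.int τ t hτ ht s).const_mul (B * C * τ)).mono' hm.norm.integral_prod_right' ?_
    refine Eventually.of_forall fun x => ?_
    have hg := gg_pos' (sub_pos.2 ht) (s - x)
    rw [Real.norm_of_nonneg (integral_nonneg fun _ => norm_nonneg _)]
    have h5 : ∫ z, ‖Function.uncurry F (x, z)‖ ∂(nu τ) ≤
        ∫ z, gg (t - τ) (s - x) * (B * C) * (gg (τ - z.1) (x - z.2) * J z.1 z.2) ∂(nu τ) := by
      refine integral_mono_ae (hsl x).norm ((har_int2 hJ hτ x).1.const_mul _) ?_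
      filter_upwards [nu_ae τ] with z hz
      simp only [Function.uncurry, hF, norm_mul, Real.norm_eq_abs]
      have h6 := gg_pos' (sub_pos.2 hz.2) (x - z.2)
      rw [abs_of_pos hg, abs_of_pos h6]
      have h7 := hC z.1 ⟨hz.1, hz.2.trans ht⟩ z.2
      calc gg (t - τ) (s - x) * (gg (τ - z.1) (x - z.2) * |V z.2| * |w z.1 z.2|) ≤
            gg (t - τ) (s - x) * (gg (τ - z.1) (x - z.2) * B * (C * J z.1 z.2)) := by
              refine mul_le_mul_of_nonneg_left ?_ hg.le
              exact mul_le_mul (mul_le_mul_of_nonneg_left (hB _) h6.le) h7 (abs_nonneg _)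
                (mul_nonneg h6.le hB0)
        _ = _ := by ring
    rw [integral_const_mul, (har_int2 hJ hτ x).2] at h5
    refine h5.trans (le_of_eq ?_)
    ring
  -- the value of the semigroup on the solution
  have hG : GG (t - τ) (w τ) s = i t s - ∫ ρ in Ioo 0 τ, ∫ z, gg (t - ρ) (s - z) * V z * w ρ z := by
    have e1 : ∀ x, gg (t - τ) (s - x) * w τ x = gg (t - τ) (s - x) * i τ x -
        ∫ ρ in Ioo 0 τ, ∫ z, F x (ρ, z) := by
      intro x
      rw [hd τ hτ x, mul_sub]
      congr 1
      rw [← integral_const_mul]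
      congr 1
      ext ρ
      rw [← integral_const_mul]
    unfold GG
    simp only [e1]
    have hI : Integrable (fun x => ∫ ρ in Ioo 0 τ, ∫ z, F x (ρ, z)) := by
      refine hFi.integral_prod_left.congr ?_
      filter_upwards [hFi.prod_right_ae] with x hx
      exact nu_integral hx
    rw [integral_sub (hi τ t hτ ht s).1 hI, (hi τ t hτ ht s).2, fub3 hFi]
    congr 1
    refine setIntegral_congr_fun measurableSet_Ioo fun ρ hρ => ?_
    congr 1
    ext z
    have e2 : ∀ x, F x (ρ, z) = gg (t - τ) (s - x) * gg (τ - ρ) (x - z) * (V z * w ρ z) := by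
      intro x
      rw [hF]
      ring
    simp only [e2]
    rw [integral_mul_const]
    have e3 := semi (τ := τ - ρ) (t := t - ρ) (sub_pos.2 hρ.2) (by linarith) s z
    rw [show t - ρ - (τ - ρ) = t - τ by ring] at e3
    rw [e3]
    ring
  -- split the Duhamel integral at `τ`
  have hI2 : IntegrableOn (fun ρ => ∫ x, gg (t - ρ) (s - x) * V x * w ρ x) (Ioo 0 t) := by
    unfold nu at I1
    exact I1.integral_prod_left
  have hint : IntervalIntegrable (fun ρ => ∫ x, gg (t - ρ) (s - x) * V x * w ρ x) volume 0 t := by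
    rw [intervalIntegrable_iff_integrableOn_Ioo_of_le ht0.le]
    exact hI2
  rw [hG, hd t ht0 s, ← ioo_interval ht0.le, ← ioo_interval hτ.le]
  have hsplit := intervalIntegral.integral_add_adjacent_intervals (μ := volume)
    (f := fun ρ => ∫ x, gg (t - ρ) (s - x) * V x * w ρ x) (a := 0) (b := τ) (c := t)
    (hint.mono_set (by
      rw [uIcc_of_le hτ.le, uIcc_of_le ht0.le]
      exact Icc_subset_Icc le_rfl ht.le))
    (hint.mono_set (by
      rw [uIcc_of_le ht.le, uIcc_of_le ht0.le]
      exact Icc_subset_Icc hτ.le le_rfl))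
  have e5 : ∫ r in τ..t, GG (t - r) (fun x => V x * w r x) s =
      ∫ ρ in τ..t, ∫ x, gg (t - ρ) (s - x) * V x * w ρ x := by
    congr 1
    ext ρ
    unfold GG
    congr 1
    ext x
    ring
  rw [e5]
  linarith

theorem mlk : T_MLK := by
  intro V B K hV hB hK
  have hB0 : 0 ≤ B := (abs_nonneg _).trans (hB 0)
  refine ⟨fun r => ?_, fun a ha hac => ?_⟩
  · refine mild_of_duh (har_gg r) hV hB (i := fun t s => gg t (s - r)) (ker_slice1 hK r)
      (fun t _ => ⟨_, ker_bound hK t r⟩) (fun τ t hτ ht s => ⟨semi_int hτ ht s r, semi hτ ht s r⟩)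
      (fun t ht s => ?_)
    rw [ker_duh' hK ht s r]
    ring
  · -- the solution with initial value `a`
    have hai : Integrable a := ha.integrable_of_hasCompactSupport hac
    obtain ⟨Ma, hMa⟩ := hac.exists_bound_of_continuous ha
    have hMa0 : 0 ≤ Ma := (norm_nonneg _).trans (hMa 0)
    have hgb : ∀ t > 0, ∀ x, gg t x ≤ (√(4 * Real.pi * t))⁻¹ := by
      intro t ht x
      unfold gg
      have h1 : Real.exp (-(x ^ 2 / (4 * t))) ≤ 1 := Real.exp_le_one_iff.2 (by
        have : 0 ≤ x ^ 2 / (4 * t) := by positivity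
        linarith)
      have h2 : 0 ≤ (√(4 * Real.pi * t))⁻¹ := by positivity
      nlinarith
    have hKi : ∀ t > 0, ∀ s, Integrable (fun r => K t s r * a r) := by
      intro t ht s
      have hc : Continuous (fun r => K t s r) := by
        have := hK.cont.comp_continuous (f := fun r : ℝ => (t, s, r)) (by fun_prop)
          (fun r => ⟨ht, mem_univ _⟩)
        exact this
      refine (hai.norm.const_mul (Real.exp (B * t) * (√(4 * Real.pi * t))⁻¹)).mono'
        (hc.mul ha).aestronglyMeasurable (Eventually.of_forall fun r => ?_)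
      rw [norm_mul, Real.norm_eq_abs (K t s r)]
      refine mul_le_mul_of_nonneg_right ((hK.bdd t ht s r).trans ?_) (norm_nonneg _)
      exact mul_le_mul_of_nonneg_left (hgb t ht _) (Real.exp_pos _).le
    -- Duhamel from time 0
    have hduh : ∀ t > 0, ∀ s, ∫ r, K t s r * a r = GG t a s -
        ∫ τ in Ioo 0 t, ∫ x, gg (t - τ) (s - x) * V x * (∫ r, K τ x r * a r) := by
      intro t ht s
      set F : ℝ → ℝ × ℝ → ℝ := fun r z => gg (t - z.1) (s - z.2) * V z.2 * (K z.1 z.2 r * a r) with hF
      have hFi : Integrable (Function.uncurry F) (volume.prod (nu t)) := by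
        have hUo : IsOpen ((univ : Set ℝ) ×ˢ (Ioo (0 : ℝ) t ×ˢ (univ : Set ℝ))) :=
          isOpen_univ.prod (isOpen_strip t)
        have hco : ContinuousOn (Function.uncurry F)
            ((univ : Set ℝ) ×ˢ (Ioo (0 : ℝ) t ×ˢ (univ : Set ℝ))) := by
          refine ContinuousOn.mul (ContinuousOn.mul ?_ (hV.comp_continuousOn (by fun_prop)))
            (ContinuousOn.mul ?_ (ha.comp_continuousOn (by fun_prop)))
          · exact gg_cont.comp (f := fun z : ℝ × (ℝ × ℝ) => (t - z.2.1, s - z.2.2)) (by fun_prop)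
              fun z hz => ⟨sub_pos.2 hz.2.1.2, mem_univ _⟩
          · exact hK.cont.comp (f := fun z : ℝ × (ℝ × ℝ) => (z.2.1, z.2.2, z.1)) (by fun_prop)
              fun z hz => ⟨hz.2.1.1, mem_univ _⟩
        have hae : ∀ᵐ z : ℝ × (ℝ × ℝ) ∂((volume : Measure ℝ).prod (nu t)), z.2.1 ∈ Ioo (0 : ℝ) t :=
          Measure.quasiMeasurePreserving_snd.ae (nu_ae t)
        have hm : AEStronglyMeasurable (Function.uncurry F) (volume.prod (nu t)) := by
          refine ⟨_, (meas_ind hUo hco).stronglyMeasurable, ?_⟩
          filter_upwards [hae] with z hz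
          rw [indicator_of_mem]
          exact ⟨mem_univ _, hz, mem_univ _⟩
        have bg' : ∀ ρ ∈ Ioo 0 t, ∀ y, |gg ρ (s - y)| ≤ 1 * gg ρ (s - y) := by
          intro τ hτ y
          rw [one_mul, abs_of_pos (gg_pos' hτ.1 _)]
        have hsl : ∀ r, Integrable (fun z : ℝ × ℝ => F r z) (nu t) := by
          intro r
          have h1 := (dom2 (har_gg r) ht s hV hB (A := fun ρ y => gg ρ (s - y))
            (w := fun τ x => K τ x r) (cont_g1 s) (ker_slice1 hK r) bg' (ker_bound hK t r)).mul_const
            (a r)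
          refine h1.congr (Eventually.of_forall fun z => ?_)
          rw [hF]
          ring
        rw [integrable_prod_iff hm]
        refine ⟨Eventually.of_forall hsl, ?_⟩
        set Ct := Real.exp (|B| * t) with hCt
        refine (hai.norm.const_mul (B * Ct * t * (√(4 * Real.pi * t))⁻¹)).mono'
          hm.norm.integral_prod_right' ?_
        refine Eventually.of_forall fun r => ?_
        rw [Real.norm_of_nonneg (integral_nonneg fun _ => norm_nonneg _)]
        have h5 : ∫ z, ‖Function.uncurry F (r, z)‖ ∂(nu t) ≤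
            ∫ z, B * Ct * ‖a r‖ * (gg (t - z.1) (s - z.2) * gg z.1 (z.2 - r)) ∂(nu t) := by
          refine integral_mono_ae (hsl r).norm ((har_int2 (har_gg r) ht s).1.const_mul _) ?_
          filter_upwards [nu_ae t] with z hz
          simp only [Function.uncurry, hF, norm_mul, Real.norm_eq_abs]
          have h6 := gg_pos' (sub_pos.2 hz.2) (s - z.2)
          rw [abs_of_pos h6]
          have h7 := ker_bound hK t r z.1 hz z.2
          calc gg (t - z.1) (s - z.2) * |V z.2| * (|K z.1 z.2 r| * |a r|) ≤
                gg (t - z.1) (s - z.2) * B * (Ct * gg z.1 (z.2 - r) * |a r|) := by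
                  refine mul_le_mul (mul_le_mul_of_nonneg_left (hB _) h6.le)
                    (mul_le_mul_of_nonneg_right h7 (abs_nonneg _)) ?_ (mul_nonneg h6.le hB0)
                  exact mul_nonneg (abs_nonneg _) (abs_nonneg _)
            _ = _ := by ring
        rw [integral_const_mul, (har_int2 (har_gg r) ht s).2] at h5
        refine h5.trans ?_
        have h8 := hgb t ht (s - r)
        have h9 : 0 ≤ B * Ct * t * ‖a r‖ := by positivity
        calc B * Ct * ‖a r‖ * (t * gg t (s - r)) = B * Ct * t * ‖a r‖ * gg t (s - r) := by ring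
          _ ≤ B * Ct * t * ‖a r‖ * (√(4 * Real.pi * t))⁻¹ := mul_le_mul_of_nonneg_left h8 h9
          _ = _ := by ring
      have e1 : ∀ r, K t s r * a r = gg t (s - r) * a r -
          ∫ ρ in Ioo 0 t, ∫ z, F r (ρ, z) := by
        intro r
        have e0 : ∫ ρ in Ioo 0 t, ∫ z, F r (ρ, z) =
            (∫ τ in Ioo 0 t, ∫ x, gg (t - τ) (s - x) * V x * K τ x r) * a r := by
          rw [← integral_mul_const]
          congr 1
          ext ρ
          rw [← integral_mul_const]
          congr 1
          ext z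
          rw [hF]
          ring
        rw [e0, ker_duh' hK ht s r]
        ring
      have hI : Integrable (fun r => ∫ ρ in Ioo 0 t, ∫ z, F r (ρ, z)) := by
        refine hFi.integral_prod_left.congr ?_
        filter_upwards [hFi.prod_right_ae] with x hx
        exact nu_integral hx
      have hga : Integrable (fun r => gg t (s - r) * a r) := by
        have hc : Continuous (fun r => gg t (s - r)) := by
          unfold gg
          fun_prop
        refine (hai.norm.const_mul ((√(4 * Real.pi * t))⁻¹)).mono'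
          (hc.mul ha).aestronglyMeasurable (Eventually.of_forall fun r => ?_)
        rw [norm_mul, Real.norm_of_nonneg (gg_pos' ht _).le]
        exact mul_le_mul_of_nonneg_right (hgb t ht _) (norm_nonneg _)
      have e2 : ∫ r, K t s r * a r = ∫ r, (gg t (s - r) * a r - ∫ ρ in Ioo 0 t, ∫ z, F r (ρ, z)) := by
        congr 1
        ext r
        exact e1 r
      rw [e2, integral_sub hga hI, fub3 hFi]
      congr 1
      refine setIntegral_congr_fun measurableSet_Ioo fun ρ hρ => ?_
      congr 1
      ext z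
      rw [← integral_const_mul]
    -- continuity
    have hcont : ContinuousOn (fun z : ℝ × ℝ => ∫ r, K z.1 z.2 r * a r) (Ioi 0 ×ˢ univ) := by
      intro z₀ hz₀
      have hz0 : 0 < z₀.1 := hz₀.1
      refine ContinuousAt.continuousWithinAt ?_
      refine continuousAt_of_dominated (bound := fun r =>
        Real.exp (B * (2 * z₀.1)) * (√(4 * Real.pi * (z₀.1 / 2)))⁻¹ * ‖a r‖) ?_ ?_
        (hai.norm.const_mul _) ?_
      · have h1 : ∀ᶠ z : ℝ × ℝ in 𝓝 z₀, 0 < z.1 :=
          continuous_fst.continuousAt.eventually (eventually_gt_nhds hz0)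
        filter_upwards [h1] with z hz
        exact (hKi z.1 hz z.2).aestronglyMeasurable
      · have h1 : ∀ᶠ z : ℝ × ℝ in 𝓝 z₀, z₀.1 / 2 < z.1 :=
          continuous_fst.continuousAt.eventually (eventually_gt_nhds (by linarith))
        have h2 : ∀ᶠ z : ℝ × ℝ in 𝓝 z₀, z.1 < 2 * z₀.1 :=
          continuous_fst.continuousAt.eventually (eventually_lt_nhds (by linarith))
        filter_upwards [h1, h2] with z hz1 hz2
        refine Eventually.of_forall fun r => ?_
        have hzp : 0 < z.1 := by linarith
        rw [norm_mul, Real.norm_eq_abs (K z.1 z.2 r)]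
        refine mul_le_mul_of_nonneg_right ((hK.bdd z.1 hzp z.2 r).trans ?_) (norm_nonneg _)
        refine mul_le_mul ?_ ((hgb z.1 hzp _).trans ?_) (gg_pos' hzp _).le (Real.exp_pos _).le
        · exact Real.exp_le_exp.2 (mul_le_mul_of_nonneg_left hz2.le hB0)
        · apply inv_anti₀ (by positivity)
          apply Real.sqrt_le_sqrt
          have := Real.pi_pos
          nlinarith
      · refine Eventually.of_forall fun r => ?_
        have h1 : ContinuousOn (fun z : ℝ × ℝ => K z.1 z.2 r) (Ioi 0 ×ˢ univ) := ker_slice1 hK r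
        exact (h1.continuousAt ((isOpen_Ioi.prod isOpen_univ).mem_nhds hz₀)).mul continuousAt_const
    refine ⟨?_, fun t ht s => ?_⟩
    · refine mild_of_duh har_one hV hB (i := fun t s => GG t a s) hcont ?_ ?_ ?_
      · intro t ht
        refine ⟨Real.exp (|B| * t) * Ma, fun τ hτ x => ?_⟩
        rw [mul_one, ← Real.norm_eq_abs]
        have h1 : ∫ r, Real.exp (|B| * t) * Ma * gg τ (x - r) = Real.exp (|B| * t) * Ma := by
          rw [integral_const_mul, gg_integral hτ.1, mul_one]
        rw [← h1]
        refine norm_integral_le_of_norm_le ((gg_int hτ.1 x).const_mul _)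
          (Eventually.of_forall fun r => ?_)
        rw [norm_mul, Real.norm_eq_abs (K τ x r)]
        calc |K τ x r| * ‖a r‖ ≤ Real.exp (|B| * t) * gg τ (x - r) * Ma :=
              mul_le_mul (ker_bound hK t r τ hτ x) (hMa r) (norm_nonneg _)
                (mul_nonneg (Real.exp_pos _).le (gg_pos' hτ.1 _).le)
          _ = _ := by ring
      · intro τ t hτ ht s
        -- the semigroup property
        have hFi : Integrable (Function.uncurry fun x r =>
            gg (t - τ) (s - x) * (gg τ (x - r) * a r)) (volume.prod volume) := by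
          have hco : Continuous (Function.uncurry fun x r : ℝ =>
              gg (t - τ) (s - x) * (gg τ (x - r) * a r)) := by
            unfold gg Function.uncurry
            fun_prop
          rw [integrable_prod_iff hco.aestronglyMeasurable]
          have hsl : ∀ x, Integrable (fun r => gg τ (x - r) * a r) := by
            intro x
            have hc : Continuous (fun r => gg τ (x - r)) := by
              unfold gg
              fun_prop
            refine (hai.norm.const_mul ((√(4 * Real.pi * τ))⁻¹)).mono'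
              (hc.mul ha).aestronglyMeasurable (Eventually.of_forall fun r => ?_)
            rw [norm_mul, Real.norm_of_nonneg (gg_pos' hτ _).le]
            exact mul_le_mul_of_nonneg_right (hgb τ hτ _) (norm_nonneg _)
          refine ⟨Eventually.of_forall fun x => (hsl x).const_mul (gg (t - τ) (s - x)), ?_⟩
          refine ((gg_int (sub_pos.2 ht) s).mul_const Ma).mono'
            hco.aestronglyMeasurable.norm.integral_prod_right' (Eventually.of_forall fun x => ?_)
          have hg := gg_pos' (sub_pos.2 ht) (s - x)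
          rw [Real.norm_of_nonneg (integral_nonneg fun _ => norm_nonneg _)]
          have h5 : ∫ r, ‖Function.uncurry (fun x r : ℝ =>
              gg (t - τ) (s - x) * (gg τ (x - r) * a r)) (x, r)‖ ≤
              ∫ r, gg (t - τ) (s - x) * Ma * gg τ (x - r) := by
            refine integral_mono_ae ((hsl x).const_mul (gg (t - τ) (s - x))).norm ((gg_int hτ x).const_mul _)
              (Eventually.of_forall fun r => ?_)
            simp only [Function.uncurry, norm_mul]
            rw [Real.norm_of_nonneg hg.le, Real.norm_of_nonneg (gg_pos' hτ _).le]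
            calc gg (t - τ) (s - x) * (gg τ (x - r) * ‖a r‖) ≤
                  gg (t - τ) (s - x) * (gg τ (x - r) * Ma) :=
                  mul_le_mul_of_nonneg_left (mul_le_mul_of_nonneg_left (hMa r) (gg_pos' hτ _).le)
                    hg.le
              _ = _ := by ring
          rw [integral_const_mul, gg_integral hτ, mul_one] at h5
          exact h5
        have e1 : ∀ x, gg (t - τ) (s - x) * GG τ a x =
            ∫ r, gg (t - τ) (s - x) * (gg τ (x - r) * a r) := by
          intro x
          unfold GG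
          rw [integral_const_mul]
        refine ⟨?_, ?_⟩
        · simp only [e1]
          exact hFi.integral_prod_left
        · simp only [e1]
          rw [integral_integral_swap hFi]
          unfold GG
          congr 1
          ext r
          have e2 : ∀ x, gg (t - τ) (s - x) * (gg τ (x - r) * a r) =
              gg (t - τ) (s - x) * gg τ (x - r) * a r := fun x => by ring
          simp only [e2]
          rw [integral_mul_const, semi hτ ht s r]
      · exact hduh
    · rw [hduh t ht s, ioo_interval ht.le]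
      congr 1
      refine setIntegral_congr_fun measurableSet_Ioo fun ρ hρ => ?_
      unfold GG
      congr 1
      ext x
      ring

end Pool.Agent.H36.HK
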