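import Pool.Agent.H96.HK.Basic

/-! # MP_e94f6f_an, module RHO: regularity and Laplacian of the distance function -/

open MeasureTheory Set Filter Topology
open scoped ContDiff

namespace Pool.Agent.H36.HK

open Pool.Agent.H96.HK

/-- linear functional on the plane -/
noncomputable def lf (a b : ℝ) : (ℝ × ℝ) →L[ℝ] ℝ :=
  a • ContinuousLinearMap.fst ℝ ℝ ℝ + b • ContinuousLinearMap.snd ℝ ℝ ℝ

lemma lf_apply (a b : ℝ) (x : ℝ × ℝ) : lf a b x = a * x.1 + b * x.2 := by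
  unfold lf
  simp

/-- invertible matrix as a continuous linear equivalence -/
noncomputable def mat (a b c d : ℝ) (h : a * d - b * c ≠ 0) : (ℝ × ℝ) ≃L[ℝ] (ℝ × ℝ) :=
  ContinuousLinearEquiv.equivOfInverse ((lf a b).prod (lf c d))
    ((lf (d / (a * d - b * c)) (-b / (a * d - b * c))).prod
      (lf (-c / (a * d - b * c)) (a / (a * d - b * c))))
    (by
      intro x
      ext
      · simp only [ContinuousLinearMap.prod_apply, lf_apply]
        generalize hD : a * d - b * c = D at h ⊢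
        field_simp
        rw [← hD]
        ring
      · simp only [ContinuousLinearMap.prod_apply, lf_apply]
        generalize hD : a * d - b * c = D at h ⊢
        field_simp
        rw [← hD]
        ring)
    (by
      intro x
      ext
      · simp only [ContinuousLinearMap.prod_apply, lf_apply]
        generalize hD : a * d - b * c = D at h ⊢
        field_simp
        rw [← hD]
        ring
      · simp only [ContinuousLinearMap.prod_apply, lf_apply]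
        generalize hD : a * d - b * c = D at h ⊢
        field_simp
        rw [← hD]
        ring)

lemma mat_coe (a b c d : ℝ) (h : a * d - b * c ≠ 0) :
    (mat a b c d h : (ℝ × ℝ) →L[ℝ] (ℝ × ℝ)) = (lf a b).prod (lf c d) := rfl

lemma mat_symm_apply (a b c d : ℝ) (h : a * d - b * c ≠ 0) (x : ℝ × ℝ) :
    (mat a b c d h).symm x = (d / (a * d - b * c) * x.1 + -b / (a * d - b * c) * x.2,
      -c / (a * d - b * c) * x.1 + a / (a * d - b * c) * x.2) := by
  show ((lf (d / (a * d - b * c)) (-b / (a * d - b * c))).prod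
      (lf (-c / (a * d - b * c)) (a / (a * d - b * c)))) x = _
  rw [ContinuousLinearMap.prod_apply, lf_apply, lf_apply]

/-- total derivative from coordinate derivatives -/
lemma hasFDerivAt_of_coord {f : ℝ × ℝ → ℝ} {x : ℝ × ℝ} (hf : DifferentiableAt ℝ f x) {a b : ℝ}
    (h1 : HasDerivAt (fun r => f (r, x.2)) a x.1) (h2 : HasDerivAt (fun θ => f (x.1, θ)) b x.2) :
    HasFDerivAt f (lf a b) x := by
  have h := hf.hasFDerivAt
  have e1 : fderiv ℝ f x (1, 0) = a := by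
    have hc : HasDerivAt (fun r : ℝ => (r, x.2)) ((1 : ℝ), (0 : ℝ)) x.1 :=
      (hasDerivAt_id x.1).prodMk (hasDerivAt_const x.1 x.2)
    exact (h.comp_hasDerivAt x.1 hc).unique h1
  have e2 : fderiv ℝ f x (0, 1) = b := by
    have hc : HasDerivAt (fun θ : ℝ => (x.1, θ)) ((0 : ℝ), (1 : ℝ)) x.2 :=
      (hasDerivAt_const x.2 x.1).prodMk (hasDerivAt_id x.2)
    exact (h.comp_hasDerivAt x.2 hc).unique h2
  have e3 : fderiv ℝ f x = lf a b := by
    ext
    · simp [lf_apply, e1]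
    · simp [lf_apply, e2]
  rw [← e3]
  exact h

/-- derivatives along the coordinates from the total derivative -/
lemma coord_of_hasFDerivAt {f : ℝ × ℝ → ℝ} {x : ℝ × ℝ} {L : (ℝ × ℝ) →L[ℝ] ℝ}
    (h : HasFDerivAt f L x) : HasDerivAt (fun r => f (r, x.2)) (L (1, 0)) x.1 ∧
      HasDerivAt (fun θ => f (x.1, θ)) (L (0, 1)) x.2 := by
  constructor
  · have hc : HasDerivAt (fun r : ℝ => (r, x.2)) ((1 : ℝ), (0 : ℝ)) x.1 :=
      (hasDerivAt_id x.1).prodMk (hasDerivAt_const x.1 x.2)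
    exact h.comp_hasDerivAt x.1 hc
  · have hc : HasDerivAt (fun θ : ℝ => (x.1, θ)) ((0 : ℝ), (1 : ℝ)) x.2 :=
      (hasDerivAt_const x.2 x.1).prodMk (hasDerivAt_id x.2)
    exact h.comp_hasDerivAt x.2 hc

theorem rho (hMINI : T_MINI) (hSURJ : T_SURJ) (hFLOW : T_FLOW) (hJAC : T_JAC) :
    T_RHO := by
  intro F K hF hFB y p hpy
  obtain ⟨S, P, A, B, hFam⟩ := hFLOW F hF y.1
  obtain ⟨J, J', hJ⟩ := hJAC F K hF hFB y.1 S P A B hFam
  obtain ⟨r0, θ0, hr0, hp⟩ := hSURJ F K hF hFB y.1 S P A B J J' hFam hJ (p.1, p.2 - y.2)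
  have hp1 : S r0 θ0 = p.1 := (congrArg Prod.fst hp).symm
  have hp2 : P r0 θ0 = p.2 - y.2 := (congrArg Prod.snd hp).symm
  have hr0' : 0 < r0 := by
    rcases hr0.lt_or_eq with h | h
    · exact h
    · exfalso
      apply hpy
      subst h
      rw [hFam.S0] at hp1
      rw [hFam.P0] at hp2
      ext
      · exact hp1.symm
      · linarith
  set Φ : ℝ × ℝ → X := fun z => (S z.1 z.2, P z.1 z.2 + y.2) with hΦ
  -- the distance along the geodesics
  have hdist : ∀ z : ℝ × ℝ, 0 ≤ z.1 → dd F y (Φ z) = z.1 := by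
    intro z hz
    have hg : IsGeod F (fun r => (S r z.2, P r z.2 + y.2)) (fun r => A r z.2) (fun r => B r z.2) :=
      ⟨fun r => hFam.Sr r z.2, fun r => (hFam.Pr r z.2).add_const y.2, fun r => hFam.Ar r z.2,
        fun r => hFam.Br r z.2, fun r => hFam.unit r z.2⟩
    have h1 := hMINI F hF _ _ _ hg 0 z.1 hz
    simp only [hFam.S0, hFam.P0, zero_add, sub_zero] at h1
    exact h1
  have hΦp : Φ (r0, θ0) = p := by
    ext
    · exact hp1
    · show P r0 θ0 + y.2 = p.2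
      rw [hp2]; ring
  have hΦc : ContDiff ℝ 1 Φ := hFam.c1.1.prodMk (hFam.c1.2.1.add contDiff_const)
  have hJpos : ∀ z : ℝ × ℝ, 0 < z.1 → 0 < J z.1 z.2 := fun z hz => hz.trans_le (hJ.ge z.1 z.2 hz.le)
  have hFpos := hF.pos
  -- total derivatives of the family
  have hθ : ∀ (G : ℝ → ℝ → ℝ), ContDiff ℝ 1 (fun z : ℝ × ℝ => G z.1 z.2) → ∀ z : ℝ × ℝ, ∀ a,
      HasDerivAt (fun r => G r z.2) a z.1 →
      HasFDerivAt (fun z : ℝ × ℝ => G z.1 z.2) (lf a (deriv (G z.1) z.2)) z := by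
    intro G hG z a ha
    refine hasFDerivAt_of_coord (hG.differentiable one_ne_zero z) ha ?_
    have h1 : DifferentiableAt ℝ (fun θ => G z.1 θ) z.2 := by
      have h2 : Differentiable ℝ (fun θ : ℝ => (z.1, θ)) := by fun_prop
      exact (hG.differentiable one_ne_zero (z.1, z.2)).comp z.2 (h2 z.2)
    exact h1.hasDerivAt
  have hdet : ∀ z : ℝ × ℝ, 0 < z.1 →
      A z.1 z.2 * (A z.1 z.2 / F (S z.1 z.2) * J z.1 z.2) -
        -(F (S z.1 z.2) * B z.1 z.2 * J z.1 z.2) * B z.1 z.2 = J z.1 z.2 / F (S z.1 z.2) := by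
    intro z hz
    have h1 := hFam.unit z.1 z.2
    have h2 := hFpos (S z.1 z.2)
    have h3 : A z.1 z.2 * (A z.1 z.2 / F (S z.1 z.2) * J z.1 z.2) -
        -(F (S z.1 z.2) * B z.1 z.2 * J z.1 z.2) * B z.1 z.2 =
        J z.1 z.2 / F (S z.1 z.2) * (A z.1 z.2 ^ 2 + F (S z.1 z.2) ^ 2 * B z.1 z.2 ^ 2) := by
      field_simp
      ring
    rw [h3, h1, mul_one]
  have hdet0 : ∀ z : ℝ × ℝ, 0 < z.1 →
      A z.1 z.2 * (A z.1 z.2 / F (S z.1 z.2) * J z.1 z.2) -
        -(F (S z.1 z.2) * B z.1 z.2 * J z.1 z.2) * B z.1 z.2 ≠ 0 := by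
    intro z hz
    rw [hdet z hz]
    exact (div_pos (hJpos z hz) (hFpos _)).ne'
  have hDΦ : ∀ z : ℝ × ℝ, ∀ hz : 0 < z.1, HasFDerivAt Φ
      (mat (A z.1 z.2) (-(F (S z.1 z.2) * B z.1 z.2 * J z.1 z.2)) (B z.1 z.2)
        (A z.1 z.2 / F (S z.1 z.2) * J z.1 z.2) (hdet0 z hz) : (ℝ × ℝ) →L[ℝ] (ℝ × ℝ)) z := by
    intro z hz
    rw [mat_coe]
    have h1 := hθ S hFam.c1.1 z _ (hFam.Sr z.1 z.2)
    have h2 := (hθ P hFam.c1.2.1 z _ (hFam.Pr z.1 z.2)).add_const y.2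
    rw [hJ.Sθ] at h1
    rw [hJ.Pθ] at h2
    exact h1.prodMk h2
  set z0 : ℝ × ℝ := (r0, θ0) with hz0
  have hz0' : 0 < z0.1 := hr0'
  -- the local inverse
  set Ψ : X → ℝ × ℝ := hΦc.contDiffAt.localInverse (hDΦ z0 hz0') one_ne_zero with hΨ
  have hΨc : ContDiffAt ℝ 1 Ψ p := by
    have := hΦc.contDiffAt.to_localInverse (hDΦ z0 hz0') one_ne_zero
    rwa [hΦp] at this
  have hΨp : Ψ p = z0 := by
    have := hΦc.contDiffAt.localInverse_apply_image (hDΦ z0 hz0') one_ne_zero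
    rwa [hΦp] at this
  have hright : ∀ᶠ p' in 𝓝 p, Φ (Ψ p') = p' := by
    have := (hΦc.contDiffAt.hasStrictFDerivAt' (hDΦ z0 hz0') one_ne_zero).eventually_right_inverse
    rwa [hΦp] at this
  have hΨcont : ∀ᶠ p' in 𝓝 p, ContDiffAt ℝ 1 Ψ p' := hΨc.eventually (by simp)
  have hpos : ∀ᶠ p' in 𝓝 p, 0 < (Ψ p').1 := by
    have h1 : ContinuousAt (fun p' => (Ψ p').1) p :=
      continuous_fst.continuousAt.comp hΨc.continuousAt
    refine h1.eventually (eventually_gt_nhds ?_)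
    show 0 < (Ψ p).1
    rw [hΨp]
    exact hr0'
  have hrho : ∀ᶠ p' in 𝓝 p, dd F y p' = (Ψ p').1 := by
    filter_upwards [hright, hpos] with p' h1 h2
    have h3 := hdist (Ψ p') h2.le
    rwa [h1] at h3
  -- derivative of the local inverse
  have hDΨ : ∀ᶠ p' in 𝓝 p, ∀ h : 0 < (Ψ p').1, HasFDerivAt Ψ
      ((mat (A (Ψ p').1 (Ψ p').2) (-(F (S (Ψ p').1 (Ψ p').2) * B (Ψ p').1 (Ψ p').2 *
        J (Ψ p').1 (Ψ p').2)) (B (Ψ p').1 (Ψ p').2)
        (A (Ψ p').1 (Ψ p').2 / F (S (Ψ p').1 (Ψ p').2) * J (Ψ p').1 (Ψ p').2)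
          (hdet0 (Ψ p') h)).symm : (ℝ × ℝ) →L[ℝ] (ℝ × ℝ)) p' := by
    filter_upwards [hright.eventually_nhds, hΨcont] with p' h1 h2 h3
    exact (hDΦ (Ψ p') h3).of_local_left_inverse h2.continuousAt h1
  have hS : ∀ᶠ p' in 𝓝 p, S (Ψ p').1 (Ψ p').2 = p'.1 := by
    filter_upwards [hright] with p' h1
    exact congrArg Prod.fst h1
  -- gradient of the distance
  have hgrad : ∀ᶠ p' in 𝓝 p, HasFDerivAt (dd F y)
      (lf (A (Ψ p').1 (Ψ p').2) (F p'.1 ^ 2 * B (Ψ p').1 (Ψ p').2)) p' := by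
    filter_upwards [hDΨ, hpos, hrho.eventually_nhds, hS] with p' h1 h2 h3 h4
    have h5 := (hasFDerivAt_fst (𝕜 := ℝ) (p := Ψ p')).comp p' (h1 h2)
    have h6 : HasFDerivAt (dd F y) _ p' := h5.congr_of_eventuallyEq h3
    have h7 := hJpos _ h2
    have h8 := hFpos (S (Ψ p').1 (Ψ p').2)
    refine h6.congr_fderiv (ContinuousLinearMap.ext fun x => ?_)
    rw [ContinuousLinearMap.comp_apply, lf_apply, ContinuousLinearEquiv.coe_coe, mat_symm_apply,
      ContinuousLinearMap.coe_fst', hdet (Ψ p') h2, ← h4]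
    field_simp
  -- the coordinate derivatives near `p`
  have hds : ∀ᶠ p' in 𝓝 p, ds (dd F y) p' = A (Ψ p').1 (Ψ p').2 := by
    filter_upwards [hgrad] with p' h1
    have h2 := (coord_of_hasFDerivAt h1).1.deriv
    rw [lf_apply] at h2
    simpa [ds] using h2
  have hdp : ∀ᶠ p' in 𝓝 p, dp (dd F y) p' = F p'.1 ^ 2 * B (Ψ p').1 (Ψ p').2 := by
    filter_upwards [hgrad] with p' h1
    have h2 := (coord_of_hasFDerivAt h1).2.deriv
    rw [lf_apply] at h2
    simpa [dp] using h2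
  have hAc : ContDiffAt ℝ 1 (fun p' => A (Ψ p').1 (Ψ p').2) p :=
    (hFam.c1.2.2.1.contDiffAt (x := Ψ p)).comp p hΨc
  have hBc : ContDiffAt ℝ 1 (fun p' => B (Ψ p').1 (Ψ p').2) p :=
    (hFam.c1.2.2.2.contDiffAt (x := Ψ p)).comp p hΨc
  have hc2 : ContDiffAt ℝ 2 (dd F y) p := by
    have h1 : ContDiffAt ℝ ((1 : ℕ) + 1) (dd F y) p := by
      rw [contDiffAt_succ_iff_hasFDerivAt]
      refine ⟨_, ⟨_, hgrad, fun x hx => hx⟩, ?_⟩
      have hF1 : ContDiffAt ℝ 1 (fun p' : X => F p'.1 ^ 2 * B (Ψ p').1 (Ψ p').2) p := by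
        refine ContDiffAt.mul (ContDiffAt.pow ?_ 2) hBc
        have : ContDiff ℝ 1 F := hF.smooth.of_le (by exact_mod_cast le_top)
        exact (this.contDiffAt (x := p.1)).comp p contDiffAt_fst
      unfold lf
      exact (hAc.smul contDiffAt_const).add (hF1.smul contDiffAt_const)
    have : ((1 : ℕ) : WithTop ℕ∞) + 1 = 2 := by norm_num
    rwa [this] at h1
  -- names at the point
  have hpp := hgrad.self_of_nhds
  have hdsp := hds.self_of_nhds
  have hdpp := hdp.self_of_nhds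
  have hSp := hS.self_of_nhds
  have hrp := hrho.self_of_nhds
  have hDp := hDΨ.self_of_nhds (by rw [hΨp]; exact hr0')
  simp only [hΨp] at hdsp hdpp hSp hrp
  have hz1 : z0.1 = r0 := rfl
  have hz2 : z0.2 = θ0 := rfl
  rw [hz1, hz2] at hdsp hdpp
  rw [hz1, hz2] at hSp
  rw [hz1] at hrp
  set a := A r0 θ0 with ha
  set b := B r0 θ0 with hb
  set j := J r0 θ0 with hj
  set j' := J' r0 θ0 with hj'
  set f := F p.1 with hf
  set f' := deriv F p.1 with hf'
  have hjpos : 0 < j := hJpos z0 hz0'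
  have hfpos : 0 < f := hFpos p.1
  have hunit : a ^ 2 + f ^ 2 * b ^ 2 = 1 := by
    have := hFam.unit r0 θ0
    rw [hSp] at this
    exact this
  have hAr : HasDerivAt (fun r => A r θ0) (f * f' * b ^ 2) r0 := by
    have := hFam.Ar r0 θ0
    rw [hSp] at this
    exact this
  have hBr : HasDerivAt (fun r => B r θ0) (-(2 * (f' / f) * a * b)) r0 := by
    have := hFam.Br r0 θ0
    rw [hSp] at this
    exact this
  have hSθ : deriv (S r0) θ0 = -(f * b * j) := by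
    have := hJ.Sθ r0 θ0
    rwa [hSp] at this
  have hPθ : deriv (P r0) θ0 = a / f * j := by
    have := hJ.Pθ r0 θ0
    rwa [hSp] at this
  have hAθ : deriv (A r0) θ0 = f * f' * b * (a / f * j) - f * b * j' := by
    have := hJ.Aθ r0 θ0
    rwa [hSp, hPθ] at this
  have hBθ : deriv (B r0) θ0 = -(f' / f * (-(f * b * j) * b + a / f * j * a)) + a / f * j' := by
    have := hJ.Bθ r0 θ0
    rwa [hSp, hPθ, hSθ] at this
  -- chain rule
  have hchain : ∀ (G : ℝ → ℝ → ℝ) (g1 : ℝ), ContDiff ℝ 1 (fun z : ℝ × ℝ => G z.1 z.2) →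
      HasDerivAt (fun r => G r θ0) g1 r0 →
      HasDerivAt (fun t => G (Ψ (t, p.2)).1 (Ψ (t, p.2)).2)
        (g1 * a + deriv (G r0) θ0 * (-(b * f / j))) p.1 ∧
      HasDerivAt (fun t => G (Ψ (p.1, t)).1 (Ψ (p.1, t)).2)
        (g1 * (f ^ 2 * b) + deriv (G r0) θ0 * (a * f / j)) p.2 := by
    intro G g1 hG hg1
    have h1 := hθ G hG z0 g1 hg1
    have h2 : HasFDerivAt (fun z : ℝ × ℝ => G z.1 z.2) (lf g1 (deriv (G r0) θ0)) (Ψ p) := by
      rw [hΨp]
      exact h1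
    have h3 := coord_of_hasFDerivAt (h2.comp p hDp)
    have hd := hdet z0 hz0'
    have e1 : (mat (A (Ψ p).1 (Ψ p).2) (-(F (S (Ψ p).1 (Ψ p).2) * B (Ψ p).1 (Ψ p).2 *
        J (Ψ p).1 (Ψ p).2)) (B (Ψ p).1 (Ψ p).2)
        (A (Ψ p).1 (Ψ p).2 / F (S (Ψ p).1 (Ψ p).2) * J (Ψ p).1 (Ψ p).2)
          (hdet0 (Ψ p) (by rw [hΨp]; exact hr0'))).symm (1, 0) = (a, -(b * f / j)) := by
      rw [mat_symm_apply]
      simp only [hΨp]
      rw [hd]
      simp only [hz1, hz2, hSp, ← ha, ← hb, ← hj, ← hf]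
      ext
      · field_simp
        ring
      · field_simp
        ring
    have e2 : (mat (A (Ψ p).1 (Ψ p).2) (-(F (S (Ψ p).1 (Ψ p).2) * B (Ψ p).1 (Ψ p).2 *
        J (Ψ p).1 (Ψ p).2)) (B (Ψ p).1 (Ψ p).2)
        (A (Ψ p).1 (Ψ p).2 / F (S (Ψ p).1 (Ψ p).2) * J (Ψ p).1 (Ψ p).2)
          (hdet0 (Ψ p) (by rw [hΨp]; exact hr0'))).symm (0, 1) = (f ^ 2 * b, a * f / j) := by
      rw [mat_symm_apply]
      simp only [hΨp]
      rw [hd]
      simp only [hz1, hz2, hSp, ← ha, ← hb, ← hj, ← hf]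
      ext
      · field_simp
        ring
      · field_simp
        ring
    rw [ContinuousLinearMap.comp_apply, ContinuousLinearMap.comp_apply,
      ContinuousLinearEquiv.coe_coe, e1, e2, lf_apply, lf_apply] at h3
    exact h3
  -- the slices of the gradient
  have hsl1 : Tendsto (fun t : ℝ => ((t, p.2) : X)) (𝓝 p.1) (𝓝 p) := by
    have : Continuous (fun t : ℝ => ((t, p.2) : X)) := by fun_prop
    exact this.tendsto p.1
  have hsl2 : Tendsto (fun t : ℝ => ((p.1, t) : X)) (𝓝 p.2) (𝓝 p) := by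
    have : Continuous (fun t : ℝ => ((p.1, t) : X)) := by fun_prop
    exact this.tendsto p.2
  have hss : ds (ds (dd F y)) p = f ^ 2 * b ^ 2 * (j' / j) := by
    have h1 := (hchain A _ hFam.c1.2.2.1 hAr).1
    have h2 : (fun t : ℝ => ds (dd F y) (t, p.2)) =ᶠ[𝓝 p.1]
        fun t => A (Ψ (t, p.2)).1 (Ψ (t, p.2)).2 := hsl1.eventually hds
    have h3 := (h1.congr_of_eventuallyEq h2).deriv
    show deriv (fun t : ℝ => ds (dd F y) (t, p.2)) p.1 = _
    rw [h3, hAθ]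
    field_simp
    ring
  have hpp2 : dp (dp (dd F y)) p = -(f * f' * a) + f ^ 2 * a ^ 2 * (j' / j) := by
    have h1 := ((hchain B _ hFam.c1.2.2.2 hBr).2).const_mul (f ^ 2)
    have h2 : (fun t : ℝ => dp (dd F y) (p.1, t)) =ᶠ[𝓝 p.2]
        fun t => f ^ 2 * B (Ψ (p.1, t)).1 (Ψ (p.1, t)).2 := hsl2.eventually hdp
    have h3 := (h1.congr_of_eventuallyEq h2).deriv
    show deriv (fun t : ℝ => dp (dd F y) (p.1, t)) p.2 = _
    rw [h3, hBθ]
    have h4 : f ^ 2 * (-(2 * (f' / f) * a * b) * (f ^ 2 * b) +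
        (-(f' / f * (-(f * b * j) * b + a / f * j * a)) + a / f * j') * (a * f / j)) =
        -(f * f' * a) * (a ^ 2 + f ^ 2 * b ^ 2) + f ^ 2 * a ^ 2 * (j' / j) := by
      field_simp
      ring
    rw [h4, hunit, mul_one]
  have hLB : LB F (dd F y) p = j' / j := by
    unfold LB
    rw [hss, hpp2, hdsp]
    have h4 : f ^ 2 * b ^ 2 * (j' / j) + f' / f * a + (-(f * f' * a) + f ^ 2 * a ^ 2 * (j' / j)) /
        f ^ 2 = (a ^ 2 + f ^ 2 * b ^ 2) * (j' / j) := by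
      field_simp
      ring
    rw [← hf, ← hf', h4, hunit, one_mul]
  have hlo : 1 / r0 ≤ j' / j := by
    rw [div_le_div_iff₀ hr0' hjpos]
    have := hJ.lo r0 θ0 hr0'
    rw [div_le_iff₀ hr0'] at this
    linarith
  have hup : j' / j ≤ 1 / r0 + K * r0 := by
    rw [div_le_iff₀ hjpos]
    have := hJ.up r0 θ0 hr0'
    linarith
  have hjj : 0 ≤ j' / j := le_trans (by positivity) hlo
  have hb2 : f ^ 2 * b ^ 2 ≤ 1 := by nlinarith [sq_nonneg a]
  have ha2 : a ^ 2 ≤ 1 := by nlinarith [mul_nonneg (sq_nonneg f) (sq_nonneg b)]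
  rw [hrp]
  refine ⟨hc2, ?_, ?_, ?_, ?_, ?_⟩
  · rw [hdsp, hdpp]
    have h1 : (f ^ 2 * b) ^ 2 / f ^ 2 = f ^ 2 * b ^ 2 := by field_simp
    rw [h1]
    exact hunit
  · rw [hLB]; exact hlo
  · rw [hLB]; exact hup
  · rw [hss, abs_of_nonneg (mul_nonneg (mul_nonneg (sq_nonneg _) (sq_nonneg _)) hjj)]
    refine le_trans ?_ hup
    nlinarith
  · rw [hpp2]
    have h1 : |(-(f * f' * a) + f ^ 2 * a ^ 2 * (j' / j))| ≤ f * 1 * 1 + f ^ 2 * 1 * (j' / j) := by
      refine (abs_add_le _ _).trans (add_le_add ?_ ?_)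
      · rw [abs_neg, abs_mul, abs_mul, abs_of_pos hfpos]
        have h2 : |f'| ≤ 1 := hFB.d1 p.1
        have h3 : |a| ≤ 1 := (abs_le_one_iff_mul_self_le_one).2 (by nlinarith)
        gcongr
      · rw [abs_of_nonneg (mul_nonneg (mul_nonneg (sq_nonneg _) (sq_nonneg _)) hjj)]
        gcongr
    refine h1.trans ?_
    have h2 : f ≤ 1 + |p.1| := hFB.up p.1
    have h3 : 1 ≤ 1 + |p.1| := by linarith [abs_nonneg p.1]
    have h4 : f ^ 2 ≤ (1 + |p.1|) ^ 2 := by gcongr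
    have h5 : f ≤ (1 + |p.1|) ^ 2 := by nlinarith
    have h6 : f ^ 2 * 1 * (j' / j) ≤ (1 + |p.1|) ^ 2 * (1 / r0 + K * r0) := by
      rw [mul_one]
      exact mul_le_mul h4 hup hjj (by positivity)
    calc f * 1 * 1 + f ^ 2 * 1 * (j' / j) ≤
          (1 + |p.1|) ^ 2 + (1 + |p.1|) ^ 2 * (1 / r0 + K * r0) := by linarith
      _ = _ := by ring

end Pool.Agent.H36.HK
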