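import Pool.Agent.H36.HK.Tools

/-! # MP_e94f6f_an, module SYM: symmetry and uniqueness of the kernel -/

open MeasureTheory Set Filter Topology ProbabilityTheory

namespace Pool.Agent.H36.HK

open Pool.Agent.H96.HK

lemma ioo_interval {t : ℝ} (ht : 0 ≤ t) (f : ℝ → ℝ) :
    ∫ τ in (0 : ℝ)..t, f τ = ∫ τ in Ioo 0 t, f τ := by
  rw [intervalIntegral.integral_of_le ht, setIntegral_congr_set Ioo_ae_eq_Ioc]

lemma ker_slice1 {V : ℝ → ℝ} {B : ℝ} {K : ℝ → ℝ → ℝ → ℝ} (hK : Ker V B K) (r : ℝ) :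
    ContinuousOn (fun z : ℝ × ℝ => K z.1 z.2 r) (Ioi 0 ×ˢ univ) :=
  hK.cont.comp (f := fun z : ℝ × ℝ => (z.1, z.2, r)) (by fun_prop) fun _ hz => ⟨hz.1, mem_univ _⟩

/-- bound on `(0,t)` -/
lemma ker_bound {V : ℝ → ℝ} {B : ℝ} {K : ℝ → ℝ → ℝ → ℝ} (hK : Ker V B K) (t r : ℝ) :
    ∀ τ ∈ Ioo 0 t, ∀ x, |K τ x r| ≤ Real.exp (|B| * t) * gg τ (x - r) := by
  intro τ hτ x
  refine (hK.bdd τ hτ.1 x r).trans (mul_le_mul_of_nonneg_right ?_ (gg_pos' hτ.1 _).le)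
  apply Real.exp_le_exp.2
  have h1 : B * τ ≤ |B| * τ := mul_le_mul_of_nonneg_right (le_abs_self B) hτ.1.le
  exact h1.trans (mul_le_mul_of_nonneg_left hτ.2.le (abs_nonneg B))

lemma ker_duh' {V : ℝ → ℝ} {B : ℝ} {K : ℝ → ℝ → ℝ → ℝ} (hK : Ker V B K) {t : ℝ} (ht : 0 < t)
    (s r : ℝ) : ∫ τ in Ioo 0 t, ∫ x, gg (t - τ) (s - x) * V x * K τ x r = gg t (s - r) - K t s r := by
  have := hK.duh t ht s r
  rw [ioo_interval ht.le] at this
  linarith

/-- the transposed Duhamel formula -/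
lemma ker_duh_t {V : ℝ → ℝ} {B : ℝ} {K : ℝ → ℝ → ℝ → ℝ} (hK : Ker V B K) {t : ℝ} (ht : 0 < t)
    (s r : ℝ) : ∫ τ in Ioo 0 t, ∫ x, K (t - τ) x s * V x * gg τ (x - r) = gg t (r - s) - K t r s := by
  rw [← ker_duh' hK ht r s, ← ioo_interval ht.le, ← ioo_interval ht.le]
  have h1 := intervalIntegral.integral_comp_sub_left (a := 0) (b := t)
    (fun τ => ∫ x, gg (t - τ) (r - x) * V x * K τ x s) t
  rw [sub_zero, sub_self] at h1
  rw [← h1]
  congr 1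
  ext τ
  congr 1
  ext x
  rw [show t - (t - τ) = τ by ring, show x - r = -(r - x) by ring, gg_neg]
  ring

theorem sym : T_SYM := by
  intro V B B' B'' K K' hV hB hK hK' t ht s r
  have cK := ker_slice1 hK r
  have cK' := ker_slice1 hK' s
  have cg : ContinuousOn (fun z : ℝ × ℝ => gg z.1 (z.2 - r)) (Ioi 0 ×ˢ univ) := (har_gg r).cont
  have cg' : ContinuousOn (fun z : ℝ × ℝ => gg z.1 (s - z.2)) (Ioi 0 ×ˢ univ) := by
    have h1 : ContinuousOn (fun z : ℝ × ℝ => (z.1, s - z.2)) (Ioi 0 ×ˢ univ) := by fun_prop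
    exact gg_cont.comp h1 fun z hz => ⟨hz.1, mem_univ _⟩
  have bK := ker_bound hK t r
  have bK' : ∀ τ ∈ Ioo 0 t, ∀ x, |K' τ x s| ≤ Real.exp (|B'| * t) * gg τ (s - x) := by
    intro τ hτ x
    rw [show s - x = -(x - s) by ring, gg_neg]
    exact ker_bound hK' t s τ hτ x
  have bg : ∀ τ ∈ Ioo 0 t, ∀ x, |gg τ (x - r)| ≤ 1 * gg τ (x - r) := by
    intro τ hτ x
    rw [one_mul, abs_of_pos (gg_pos' hτ.1 _)]
  have bg' : ∀ τ ∈ Ioo 0 t, ∀ x, |gg τ (s - x)| ≤ 1 * gg τ (s - x) := by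
    intro τ hτ x
    rw [one_mul, abs_of_pos (gg_pos' hτ.1 _)]
  -- integrable products
  have I1 := dom2 (har_gg r) ht s hV hB (A := fun τ x => K' τ x s) (w := fun τ x => gg τ (x - r))
    cK' cg bK' bg
  have I2 := dom2 (har_gg r) ht s hV hB (A := fun τ x => K' τ x s) (w := fun τ x => K τ x r)
    cK' cK bK' bK
  have I3 := dom2 (har_gg r) ht s hV hB (A := fun τ x => gg τ (s - x)) (w := fun τ x => K τ x r)
    cg' cK bg' bK
  have key := assoc4 (har_gg r) ht s hV hB (A := fun τ x => K' τ x s) (w := fun τ x => K τ x r)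
    cK' cK bK' bK
  set Q := ∫ z, K' (t - z.1) z.2 s * V z.2 * K z.1 z.2 r ∂(nu t) with hQ
  have hL : ∫ τ in Ioo 0 t, ∫ x, K' (t - τ) x s * V x *
      (∫ ρ in Ioo 0 τ, ∫ z, gg (τ - ρ) (x - z) * V z * K ρ z r) = (gg t (r - s) - K' t r s) - Q := by
    rw [← ker_duh_t hK' ht s r, hQ, ← nu_integral I1, ← integral_sub I1 I2]
    rw [nu_integral (f := fun a : ℝ × ℝ => K' (t - a.1) a.2 s * V a.2 * gg a.1 (a.2 - r) -
      K' (t - a.1) a.2 s * V a.2 * K a.1 a.2 r) (I1.sub I2)]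
    refine setIntegral_congr_fun measurableSet_Ioo fun τ hτ => ?_
    congr 1
    ext x
    rw [ker_duh' hK hτ.1 x r]
    ring
  have hR : ∫ ρ in Ioo 0 t, ∫ z, (∫ τ in Ioo 0 (t - ρ), ∫ x, K' (t - ρ - τ) x s * V x *
      gg τ (x - z)) * V z * K ρ z r = (gg t (s - r) - K t s r) - Q := by
    rw [← ker_duh' hK ht s r, hQ, ← nu_integral I3, ← integral_sub I3 I2]
    rw [nu_integral (f := fun a : ℝ × ℝ => gg (t - a.1) (s - a.2) * V a.2 * K a.1 a.2 r -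
      K' (t - a.1) a.2 s * V a.2 * K a.1 a.2 r) (I3.sub I2)]
    refine setIntegral_congr_fun measurableSet_Ioo fun τ hτ => ?_
    congr 1
    ext x
    rw [ker_duh_t hK' (sub_pos.2 hτ.2) s x, show x - s = -(s - x) by ring, gg_neg]
    ring
  rw [hL, hR, show r - s = -(s - r) by ring, gg_neg] at key
  linarith

end Pool.Agent.H36.HK
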