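import Pool.Agent.H96.HK.Basic

/-! # MP_e94f6f_an: tools for the one-dimensional heat kernel -/

open MeasureTheory Set Filter Topology ProbabilityTheory
open scoped NNReal

namespace Pool.Agent.H36.HK

open Pool.Agent.H96.HK

/-- bridge point -/
noncomputable def bp (t s r σ ξ : ℝ) : ℝ := σ * s + (1 - σ) * r + √(2 * t * σ * (1 - σ)) * ξ

/-! ### the Gaussian product formula -/

lemma gg_prod {τ t : ℝ} (h0 : 0 < τ) (ht : τ < t) (s r x : ℝ) :
    gg (t - τ) (s - x) * gg τ (x - r) = gg t (s - r) *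
      gaussianPDFReal ((τ * s + (t - τ) * r) / t)
        (2 * τ * (t - τ) / t).toNNReal x := by
  have ht0 : 0 < t := h0.trans ht
  have h1 : 0 < t - τ := sub_pos.2 ht
  have hv : 0 < 2 * τ * (t - τ) / t := by positivity
  unfold gg gaussianPDFReal
  rw [Real.coe_toNNReal _ hv.le]
  have e1 : Real.exp (-((s - x) ^ 2 / (4 * (t - τ)))) * Real.exp (-((x - r) ^ 2 / (4 * τ))) =
      Real.exp (-((s - r) ^ 2 / (4 * t))) *
        Real.exp (-(x - (τ * s + (t - τ) * r) / t) ^ 2 / (2 * (2 * τ * (t - τ) / t))) := by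
    rw [← Real.exp_add, ← Real.exp_add]
    congr 1
    field_simp
    ring
  have e2 : (√(4 * Real.pi * (t - τ)))⁻¹ * (√(4 * Real.pi * τ))⁻¹ =
      (√(4 * Real.pi * t))⁻¹ * (√(2 * Real.pi * (2 * τ * (t - τ) / t)))⁻¹ := by
    rw [← mul_inv, ← mul_inv, ← Real.sqrt_mul (by positivity), ← Real.sqrt_mul (by positivity)]
    congr 2
    field_simp
    ring
  calc _ = ((√(4 * Real.pi * (t - τ)))⁻¹ * (√(4 * Real.pi * τ))⁻¹) *
        (Real.exp (-((s - x) ^ 2 / (4 * (t - τ)))) * Real.exp (-((x - r) ^ 2 / (4 * τ)))) := by ring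
    _ = _ := by rw [e1, e2]; ring

/-- integration against the product of two Gaussians -/
lemma gg_bridge {τ t : ℝ} (h0 : 0 < τ) (ht : τ < t) (s r : ℝ) (f : ℝ → ℝ) :
    ∫ x, gg (t - τ) (s - x) * gg τ (x - r) * f x =
      gg t (s - r) * ∫ ξ, f (bp t s r (τ / t) ξ) ∂(gaussianReal 0 1) := by
  have ht0 : 0 < t := h0.trans ht
  have h1 : 0 < t - τ := sub_pos.2 ht
  have hv : 0 < 2 * τ * (t - τ) / t := by positivity
  set m := (τ * s + (t - τ) * r) / t with hm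
  set v : ℝ≥0 := (2 * τ * (t - τ) / t).toNNReal with hvd
  have hv0 : v ≠ 0 := by
    rw [hvd]
    intro h
    rw [Real.toNNReal_eq_zero] at h
    linarith
  have h2 : ∀ x, gg (t - τ) (s - x) * gg τ (x - r) * f x =
      gg t (s - r) * (gaussianPDFReal m v x • f x) := by
    intro x
    rw [gg_prod h0 ht, smul_eq_mul]
    ring
  simp only [h2]
  rw [integral_const_mul, ← integral_gaussianReal_eq_integral_smul hv0]
  congr 1
  have h3 : gaussianReal m v = (gaussianReal 0 1).map (fun ξ => m + √(2 * τ * (t - τ) / t) * ξ) := by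
    have e1 := gaussianReal_map_const_mul (μ := 0) (v := 1) (√(2 * τ * (t - τ) / t))
    have e2 := gaussianReal_map_const_add (μ := 0) (v := v) m
    have e3 : (NNReal.mk (√(2 * τ * (t - τ) / t) ^ 2) (sq_nonneg _) * 1 : ℝ≥0) = v := by
      rw [mul_one, hvd]
      apply NNReal.coe_injective
      rw [Real.coe_toNNReal _ hv.le]
      exact Real.sq_sqrt hv.le
    rw [mul_zero, e3] at e1
    rw [zero_add] at e2
    rw [← e2, ← e1, Measure.map_map (by fun_prop) (by fun_prop)]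
    rfl
  have hs : √(2 * τ * (t - τ) / t) ≠ 0 := (Real.sqrt_pos.2 hv).ne'
  have hme : MeasurableEmbedding (fun ξ : ℝ => m + √(2 * τ * (t - τ) / t) * ξ) := by
    have := ((Homeomorph.mulLeft₀ _ hs).trans (Homeomorph.addLeft m)).measurableEmbedding
    exact this
  rw [h3, hme.integral_map]
  congr 1
  ext ξ
  congr 1
  unfold bp
  have e4 : 2 * t * (τ / t) * (1 - τ / t) = 2 * τ * (t - τ) / t := by
    field_simp
  have e5 : τ / t * s + (1 - τ / t) * r = m := by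
    rw [hm]
    field_simp
  rw [e4, e5]


lemma gg_cont : ContinuousOn (fun z : ℝ × ℝ => gg z.1 z.2) (Ioi 0 ×ˢ univ) := by
  unfold gg
  have h0 : ∀ z ∈ (Ioi (0 : ℝ) ×ˢ univ : Set (ℝ × ℝ)), 0 < z.1 := fun z hz => hz.1
  refine ContinuousOn.mul (ContinuousOn.inv₀ (by fun_prop) ?_) ?_
  · intro z hz
    have := h0 z hz
    positivity
  · refine Real.continuous_exp.comp_continuousOn (ContinuousOn.neg (ContinuousOn.div (by fun_prop)
      (by fun_prop) ?_))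
    intro z hz
    have := h0 z hz
    positivity

lemma gg_pos' {t : ℝ} (ht : 0 < t) (x : ℝ) : 0 < gg t x := by
  unfold gg
  positivity


lemma gg_neg (t x : ℝ) : gg t (-x) = gg t x := by
  unfold gg
  rw [neg_sq]

lemma semi_int {τ t : ℝ} (h0 : 0 < τ) (ht : τ < t) (s r : ℝ) :
    Integrable (fun x => gg (t - τ) (s - x) * gg τ (x - r)) := by
  simp only [gg_prod h0 ht]
  exact (integrable_gaussianPDFReal _ _).const_mul _

lemma semi {τ t : ℝ} (h0 : 0 < τ) (ht : τ < t) (s r : ℝ) :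
    ∫ x, gg (t - τ) (s - x) * gg τ (x - r) = gg t (s - r) := by
  have := gg_bridge h0 ht s r (fun _ => 1)
  simpa using this

lemma gg_eq_pdf {t : ℝ} (ht : 0 < t) (s x : ℝ) :
    gg t (s - x) = gaussianPDFReal s (2 * t).toNNReal x := by
  unfold gg gaussianPDFReal
  rw [Real.coe_toNNReal _ (by positivity), show 4 * Real.pi * t = 2 * Real.pi * (2 * t) by ring,
    show -((s - x) ^ 2 / (4 * t)) = -(x - s) ^ 2 / (2 * (2 * t)) by
      rw [neg_div]
      congr 2 <;> ring]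

lemma gg_int {t : ℝ} (ht : 0 < t) (s : ℝ) : Integrable (fun x => gg t (s - x)) := by
  simp only [gg_eq_pdf ht]
  exact integrable_gaussianPDFReal _ _

lemma gg_integral {t : ℝ} (ht : 0 < t) (s : ℝ) : ∫ x, gg t (s - x) = 1 := by
  simp only [gg_eq_pdf ht]
  refine integral_gaussianPDFReal_eq_one _ ?_
  intro h
  rw [Real.toNNReal_eq_zero] at h
  linarith

/-- positive solutions of the heat equation, in integrated form -/
structure Har (J : ℝ → ℝ → ℝ) : Prop where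
  cont : ContinuousOn (fun z : ℝ × ℝ => J z.1 z.2) (Ioi 0 ×ˢ univ)
  nn : ∀ t > 0, ∀ x, 0 ≤ J t x
  int : ∀ τ t, 0 < τ → τ < t → ∀ s, Integrable (fun x => gg (t - τ) (s - x) * J τ x)
  eq : ∀ τ t, 0 < τ → τ < t → ∀ s, ∫ x, gg (t - τ) (s - x) * J τ x = J t s

lemma har_gg (r : ℝ) : Har (fun t x => gg t (x - r)) where
  cont := by
    have h1 : ContinuousOn (fun z : ℝ × ℝ => (z.1, z.2 - r)) (Ioi 0 ×ˢ univ) := by fun_prop
    exact gg_cont.comp h1 fun z hz => ⟨hz.1, mem_univ _⟩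
  nn := fun t ht x => (gg_pos' ht _).le
  int := fun τ t h0 ht s => semi_int h0 ht s r
  eq := fun τ t h0 ht s => semi h0 ht s r

lemma har_one : Har (fun _ _ => 1) where
  cont := continuousOn_const
  nn := fun _ _ _ => zero_le_one
  int := fun τ t _ ht s => by
    simp only [mul_one]
    exact gg_int (sub_pos.2 ht) s
  eq := fun τ t _ ht s => by
    simp only [mul_one]
    exact gg_integral (sub_pos.2 ht) s

/-- time-space measure on `(0,t) × ℝ` -/
noncomputable def nu (t : ℝ) : Measure (ℝ × ℝ) := (volume.restrict (Ioo 0 t)).prod volume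

instance (t : ℝ) : SFinite (nu t) := by unfold nu; infer_instance

lemma nu_ae (t : ℝ) : ∀ᵐ z ∂(nu t), z.1 ∈ Ioo (0 : ℝ) t := by
  unfold nu
  have h1 : ∀ᵐ x ∂(volume.restrict (Ioo (0 : ℝ) t)), x ∈ Ioo (0 : ℝ) t :=
    ae_restrict_mem measurableSet_Ioo
  exact Measure.quasiMeasurePreserving_fst.ae h1

/-- functions continuous on an open set, cut off -/
lemma meas_ind {α : Type*} [TopologicalSpace α] [MeasurableSpace α] [OpensMeasurableSpace α]
    {U : Set α} (hU : IsOpen U) {f : α → ℝ} (hf : ContinuousOn f U) : Measurable (U.indicator f) := by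
  classical
  rw [← piecewise_eq_indicator]
  exact hf.measurable_piecewise continuousOn_const hU.measurableSet

lemma cont_gt {t s : ℝ} : ContinuousOn (fun z : ℝ × ℝ => gg (t - z.1) (s - z.2)) (Ioo 0 t ×ˢ univ) := by
  have h1 : ContinuousOn (fun z : ℝ × ℝ => (t - z.1, s - z.2)) (Ioo 0 t ×ˢ univ) := by fun_prop
  exact gg_cont.comp h1 fun z hz => ⟨sub_pos.2 hz.1.2, mem_univ _⟩

lemma isOpen_strip (t : ℝ) : IsOpen (Ioo (0 : ℝ) t ×ˢ (univ : Set ℝ)) := isOpen_Ioo.prod isOpen_univ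

lemma aesm_nu {t : ℝ} {f : ℝ × ℝ → ℝ} (hf : ContinuousOn f (Ioo (0 : ℝ) t ×ˢ (univ : Set ℝ))) :
    AEStronglyMeasurable f (nu t) := by
  refine ⟨_, (meas_ind (isOpen_strip t) hf).stronglyMeasurable, ?_⟩
  filter_upwards [nu_ae t] with z hz
  rw [indicator_of_mem]
  exact ⟨hz, mem_univ _⟩

lemma har_int2 {J : ℝ → ℝ → ℝ} (hJ : Har J) {t : ℝ} (ht : 0 < t) (s : ℝ) :
    Integrable (fun z : ℝ × ℝ => gg (t - z.1) (s - z.2) * J z.1 z.2) (nu t) ∧
      ∫ z, gg (t - z.1) (s - z.2) * J z.1 z.2 ∂(nu t) = t * J t s := by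
  have hc : ContinuousOn (fun z : ℝ × ℝ => gg (t - z.1) (s - z.2) * J z.1 z.2)
      (Ioo 0 t ×ˢ univ) :=
    cont_gt.mul (hJ.cont.mono (prod_mono_left Ioo_subset_Ioi_self))
  have h1 : ∀ τ ∈ Ioo 0 t, ∫ x, ‖gg (t - τ) (s - x) * J τ x‖ = J t s := by
    intro τ hτ
    rw [← hJ.eq τ t hτ.1 hτ.2 s]
    congr 1
    ext x
    exact Real.norm_of_nonneg (mul_nonneg (gg_pos' (sub_pos.2 hτ.2) _).le (hJ.nn τ hτ.1 x))
  have h2 : Integrable (fun z : ℝ × ℝ => gg (t - z.1) (s - z.2) * J z.1 z.2) (nu t) := by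
    have hm := aesm_nu hc
    unfold nu at hm ⊢
    rw [integrable_prod_iff hm]
    refine ⟨?_, ?_⟩
    · filter_upwards [ae_restrict_mem measurableSet_Ioo] with τ hτ
      exact hJ.int τ t hτ.1 hτ.2 s
    · refine (integrable_const (J t s)).congr ?_
      filter_upwards [ae_restrict_mem measurableSet_Ioo] with τ hτ
      exact (h1 τ hτ).symm
  refine ⟨h2, ?_⟩
  unfold nu at h2 ⊢
  rw [integral_prod _ h2]
  have h3 : ∫ τ in Ioo 0 t, ∫ x, gg (t - τ) (s - x) * J τ x = ∫ τ in Ioo 0 t, J t s :=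
    setIntegral_congr_fun measurableSet_Ioo fun τ hτ => hJ.eq τ t hτ.1 hτ.2 s
  simp only
  rw [h3, setIntegral_const, measureReal_def, Real.volume_Ioo, sub_zero,
    ENNReal.toReal_ofReal ht.le, smul_eq_mul]

/-- iterated integrals over time and space -/
lemma nu_integral {t : ℝ} {f : ℝ × ℝ → ℝ} (hf : Integrable f (nu t)) :
    ∫ z, f z ∂(nu t) = ∫ τ in Ioo 0 t, ∫ x, f (τ, x) := by
  unfold nu at hf ⊢
  exact integral_prod _ hf

/-- triple Fubini -/
lemma fub3 {t : ℝ} {F : ℝ → ℝ × ℝ → ℝ}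
    (hF : Integrable (Function.uncurry F) (volume.prod (nu t))) :
    ∫ x, ∫ τ in Ioo 0 t, ∫ z, F x (τ, z) = ∫ τ in Ioo 0 t, ∫ z, ∫ x, F x (τ, z) := by
  have h1 : ∫ x, ∫ τ in Ioo 0 t, ∫ z, F x (τ, z) = ∫ x, ∫ w, F x w ∂(nu t) := by
    refine integral_congr_ae ?_
    filter_upwards [hF.prod_right_ae] with x hx
    exact (nu_integral hx).symm
  rw [h1, integral_integral_swap hF]
  exact nu_integral hF.integral_prod_right

/-- quadruple Fubini -/
lemma fub4 {t : ℝ} {F : ℝ × ℝ → ℝ × ℝ → ℝ}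
    (hF : Integrable (Function.uncurry F) ((nu t).prod (nu t))) :
    ∫ τ in Ioo 0 t, ∫ x, ∫ ρ in Ioo 0 t, ∫ z, F (τ, x) (ρ, z) =
      ∫ ρ in Ioo 0 t, ∫ z, ∫ τ in Ioo 0 t, ∫ x, F (τ, x) (ρ, z) := by
  have key : ∀ G : ℝ × ℝ → ℝ × ℝ → ℝ, Integrable (Function.uncurry G) ((nu t).prod (nu t)) →
      ∫ τ in Ioo 0 t, ∫ x, ∫ ρ in Ioo 0 t, ∫ z, G (τ, x) (ρ, z) = ∫ w, ∫ v, G w v ∂(nu t) ∂(nu t) := by
    intro G hG
    have h1 : (fun w => ∫ v, G w v ∂(nu t)) =ᵐ[nu t]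
        fun w => ∫ ρ in Ioo 0 t, ∫ z, G w (ρ, z) := by
      filter_upwards [hG.prod_right_ae] with w hw
      exact nu_integral hw
    have h2 : Integrable (fun w => ∫ ρ in Ioo 0 t, ∫ z, G w (ρ, z)) (nu t) :=
      hG.integral_prod_left.congr h1
    rw [integral_congr_ae h1, nu_integral h2]
  rw [key F hF, integral_integral_swap hF]
  exact (key (fun v w => F w v) hF.swap).symm


lemma nu_restrict {τ t : ℝ} (h : τ ≤ t) : (nu t).restrict (Iio τ ×ˢ univ) = nu τ := by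
  have h1 : Iio τ ∩ Ioo 0 t = Ioo 0 τ := by
    ext x
    simp only [mem_inter_iff, mem_Iio, mem_Ioo]
    constructor
    · rintro ⟨a, b, c⟩
      exact ⟨b, a⟩
    · rintro ⟨a, b⟩
      exact ⟨b, a, b.trans_le h⟩
  unfold nu
  rw [← Measure.prod_restrict, Measure.restrict_restrict measurableSet_Iio, h1,
    Measure.restrict_univ]

lemma meas_half (τ : ℝ) : MeasurableSet (Iio τ ×ˢ (univ : Set ℝ)) :=
  measurableSet_Iio.prod MeasurableSet.univ

lemma ind_int {τ t : ℝ} (h : τ ≤ t) {f : ℝ × ℝ → ℝ} :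
    Integrable ((Iio τ ×ˢ (univ : Set ℝ)).indicator f) (nu t) ↔ Integrable f (nu τ) := by
  rw [integrable_indicator_iff (meas_half τ), IntegrableOn, nu_restrict h]

lemma ind_integral {τ t : ℝ} (h : τ ≤ t) {f : ℝ × ℝ → ℝ} :
    ∫ z, (Iio τ ×ˢ (univ : Set ℝ)).indicator f z ∂(nu t) = ∫ z, f z ∂(nu τ) := by
  rw [integral_indicator (meas_half τ), nu_restrict h]

/-- products of a kernel, a potential and a dominated function -/
lemma dom2 {J : ℝ → ℝ → ℝ} (hJ : Har J) {t : ℝ} (ht : 0 < t) (s : ℝ) {V : ℝ → ℝ}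
    (hV : Continuous V) {B : ℝ} (hB : ∀ s, |V s| ≤ B) {A w : ℝ → ℝ → ℝ}
    (hA : ContinuousOn (fun z : ℝ × ℝ => A z.1 z.2) (Ioi 0 ×ˢ univ))
    (hw : ContinuousOn (fun z : ℝ × ℝ => w z.1 z.2) (Ioi 0 ×ˢ univ)) {C1 C2 : ℝ}
    (hA' : ∀ τ ∈ Ioo 0 t, ∀ x, |A τ x| ≤ C1 * gg τ (s - x))
    (hw' : ∀ τ ∈ Ioo 0 t, ∀ x, |w τ x| ≤ C2 * J τ x) :
    Integrable (fun z : ℝ × ℝ => A (t - z.1) z.2 * V z.2 * w z.1 z.2) (nu t) := by
  have hB0 : 0 ≤ B := (abs_nonneg _).trans (hB 0)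
  refine ((har_int2 hJ ht s).1.const_mul (C1 * B * C2)).mono' (aesm_nu ?_) ?_
  · refine ContinuousOn.mul (ContinuousOn.mul ?_ (hV.comp_continuousOn (by fun_prop))) ?_
    · have h1 : ContinuousOn (fun z : ℝ × ℝ => (t - z.1, z.2)) (Ioo 0 t ×ˢ univ) := by fun_prop
      exact hA.comp h1 fun z hz => ⟨sub_pos.2 hz.1.2, mem_univ _⟩
    · exact hw.mono (prod_mono_left Ioo_subset_Ioi_self)
  · filter_upwards [nu_ae t] with z hz
    have h2 : t - z.1 ∈ Ioo 0 t := ⟨sub_pos.2 hz.2, by linarith [hz.1]⟩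
    have h3 := hA' _ h2 z.2
    have h4 := hw' _ hz z.2
    have h5 : 0 ≤ C1 * gg (t - z.1) (s - z.2) := (abs_nonneg _).trans h3
    rw [norm_mul, norm_mul, Real.norm_eq_abs, Real.norm_eq_abs, Real.norm_eq_abs]
    calc |A (t - z.1) z.2| * |V z.2| * |w z.1 z.2| ≤
          C1 * gg (t - z.1) (s - z.2) * B * (C2 * J z.1 z.2) := by
          refine mul_le_mul (mul_le_mul h3 (hB _) (abs_nonneg _) h5) h4 (abs_nonneg _)
            (mul_nonneg h5 hB0)
      _ = _ := by ring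

/-- the region of quadruple integrals -/
def U4 (t : ℝ) : Set ((ℝ × ℝ) × (ℝ × ℝ)) := {z | 0 < z.2.1 ∧ z.2.1 < z.1.1 ∧ z.1.1 < t}

lemma isOpen_U4 (t : ℝ) : IsOpen (U4 t) := by
  have c1 : Continuous (fun z : (ℝ × ℝ) × (ℝ × ℝ) => z.2.1) := by fun_prop
  have c2 : Continuous (fun z : (ℝ × ℝ) × (ℝ × ℝ) => z.1.1) := by fun_prop
  exact (isOpen_lt continuous_const c1).inter ((isOpen_lt c1 c2).inter
    (isOpen_lt c2 continuous_const))

lemma har_int4 {J : ℝ → ℝ → ℝ} (hJ : Har J) {t : ℝ} (ht : 0 < t) (s : ℝ) :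
    Integrable ((U4 t).indicator (fun z : (ℝ × ℝ) × (ℝ × ℝ) => gg (t - z.1.1) (s - z.1.2) *
      (gg (z.1.1 - z.2.1) (z.1.2 - z.2.2) * J z.2.1 z.2.2))) ((nu t).prod (nu t)) := by
  have hc : ContinuousOn (fun z : (ℝ × ℝ) × (ℝ × ℝ) => gg (t - z.1.1) (s - z.1.2) *
      (gg (z.1.1 - z.2.1) (z.1.2 - z.2.2) * J z.2.1 z.2.2)) (U4 t) := by
    refine ContinuousOn.mul ?_ (ContinuousOn.mul ?_ ?_)
    · exact gg_cont.comp (f := fun z : (ℝ × ℝ) × (ℝ × ℝ) => (t - z.1.1, s - z.1.2))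
        (by fun_prop) fun z hz => ⟨sub_pos.2 hz.2.2, mem_univ _⟩
    · exact gg_cont.comp (f := fun z : (ℝ × ℝ) × (ℝ × ℝ) => (z.1.1 - z.2.1, z.1.2 - z.2.2))
        (by fun_prop) fun z hz => ⟨sub_pos.2 hz.2.1, mem_univ _⟩
    · exact hJ.cont.comp (f := fun z : (ℝ × ℝ) × (ℝ × ℝ) => (z.2.1, z.2.2))
        (by fun_prop) fun z hz => ⟨hz.1, mem_univ _⟩
  have hm := (meas_ind (isOpen_U4 t) hc)
  rw [integrable_prod_iff hm.aestronglyMeasurable]
  have hsl : ∀ w : ℝ × ℝ, w.1 ∈ Ioo 0 t → (fun v => (U4 t).indicator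
      (fun z : (ℝ × ℝ) × (ℝ × ℝ) => gg (t - z.1.1) (s - z.1.2) *
      (gg (z.1.1 - z.2.1) (z.1.2 - z.2.2) * J z.2.1 z.2.2)) (w, v)) =ᵐ[nu t]
      (Iio w.1 ×ˢ (univ : Set ℝ)).indicator (fun v => gg (t - w.1) (s - w.2) *
        (gg (w.1 - v.1) (w.2 - v.2) * J v.1 v.2)) := by
    intro w hw
    filter_upwards [nu_ae t] with v hv
    by_cases h1 : v.1 < w.1
    · rw [indicator_of_mem (show (w, v) ∈ U4 t from ⟨hv.1, h1, hw.2⟩),
        indicator_of_mem (show v ∈ Iio w.1 ×ˢ (univ : Set ℝ) from ⟨h1, mem_univ _⟩)]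
    · rw [indicator_of_notMem (show (w, v) ∉ U4 t from fun h => h1 h.2.1),
        indicator_of_notMem (show v ∉ Iio w.1 ×ˢ (univ : Set ℝ) from fun h => h1 h.1)]
  refine ⟨?_, ?_⟩
  · filter_upwards [nu_ae t] with w hw
    refine Integrable.congr ?_ (hsl w hw).symm
    rw [ind_int hw.2.le]
    exact ((har_int2 hJ hw.1 w.2).1).const_mul _
  · have h2 : (fun w : ℝ × ℝ => ∫ v, ‖(U4 t).indicator
      (fun z : (ℝ × ℝ) × (ℝ × ℝ) => gg (t - z.1.1) (s - z.1.2) *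
      (gg (z.1.1 - z.2.1) (z.1.2 - z.2.2) * J z.2.1 z.2.2)) (w, v)‖ ∂(nu t)) =ᵐ[nu t]
      fun w => gg (t - w.1) (s - w.2) * (w.1 * J w.1 w.2) := by
      filter_upwards [nu_ae t] with w hw
      have h3 := (hsl w hw).fun_comp (fun x : ℝ => ‖x‖)
      have h4 : ∫ v, ‖(U4 t).indicator
        (fun z : (ℝ × ℝ) × (ℝ × ℝ) => gg (t - z.1.1) (s - z.1.2) *
        (gg (z.1.1 - z.2.1) (z.1.2 - z.2.2) * J z.2.1 z.2.2)) (w, v)‖ ∂(nu t) =
        ∫ v, (Iio w.1 ×ˢ (univ : Set ℝ)).indicator (fun v => gg (t - w.1) (s - w.2) *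
        (gg (w.1 - v.1) (w.2 - v.2) * J v.1 v.2)) v ∂(nu t) := by
        refine integral_congr_ae (h3.trans ?_)
        filter_upwards [nu_ae t] with v hv
        simp only [Function.comp_apply]
        refine Real.norm_of_nonneg ?_
        by_cases h1 : v.1 < w.1
        · rw [indicator_of_mem (show v ∈ Iio w.1 ×ˢ (univ : Set ℝ) from ⟨h1, mem_univ _⟩)]
          exact mul_nonneg (gg_pos' (sub_pos.2 hw.2) _).le
            (mul_nonneg (gg_pos' (sub_pos.2 h1) _).le (hJ.nn _ hv.1 _))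
        · rw [indicator_of_notMem (show v ∉ Iio w.1 ×ˢ (univ : Set ℝ) from fun h => h1 h.1)]
      rw [h4, ind_integral hw.2.le, integral_const_mul, (har_int2 hJ hw.1 w.2).2]
    refine Integrable.congr ?_ h2.symm
    refine ((har_int2 hJ ht s).1.const_mul t).mono' (aesm_nu ?_) ?_
    · refine ContinuousOn.mul cont_gt (ContinuousOn.mul (by fun_prop) ?_)
      exact hJ.cont.mono (prod_mono_left Ioo_subset_Ioi_self)
    · filter_upwards [nu_ae t] with w hw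
      have h5 := gg_pos' (sub_pos.2 hw.2) (s - w.2)
      have h6 := hJ.nn w.1 hw.1 w.2
      rw [Real.norm_of_nonneg (mul_nonneg h5.le (mul_nonneg hw.1.le h6))]
      have h7 : w.1 * (gg (t - w.1) (s - w.2) * J w.1 w.2) ≤
          t * (gg (t - w.1) (s - w.2) * J w.1 w.2) :=
        mul_le_mul_of_nonneg_right hw.2.le (mul_nonneg h5.le h6)
      linarith


/-- associativity of the Duhamel products -/
lemma assoc4 {J : ℝ → ℝ → ℝ} (hJ : Har J) {t : ℝ} (ht : 0 < t) (s : ℝ) {V : ℝ → ℝ}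
    (hV : Continuous V) {B : ℝ} (hB : ∀ s, |V s| ≤ B) {A w : ℝ → ℝ → ℝ}
    (hA : ContinuousOn (fun z : ℝ × ℝ => A z.1 z.2) (Ioi 0 ×ˢ univ))
    (hw : ContinuousOn (fun z : ℝ × ℝ => w z.1 z.2) (Ioi 0 ×ˢ univ)) {C1 C2 : ℝ}
    (hA' : ∀ τ ∈ Ioo 0 t, ∀ x, |A τ x| ≤ C1 * gg τ (s - x))
    (hw' : ∀ τ ∈ Ioo 0 t, ∀ x, |w τ x| ≤ C2 * J τ x) :
    ∫ τ in Ioo 0 t, ∫ x, A (t - τ) x * V x *
        (∫ ρ in Ioo 0 τ, ∫ z, gg (τ - ρ) (x - z) * V z * w ρ z) =
      ∫ ρ in Ioo 0 t, ∫ z, (∫ τ in Ioo 0 (t - ρ), ∫ x, A (t - ρ - τ) x * V x * gg τ (x - z)) *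
        V z * w ρ z := by
  have hB0 : 0 ≤ B := (abs_nonneg _).trans (hB 0)
  set f : (ℝ × ℝ) × (ℝ × ℝ) → ℝ := fun z => A (t - z.1.1) z.1.2 * V z.1.2 *
    (gg (z.1.1 - z.2.1) (z.1.2 - z.2.2) * V z.2.2 * w z.2.1 z.2.2) with hf
  have hc : ContinuousOn f (U4 t) := by
    refine ContinuousOn.mul (ContinuousOn.mul ?_ (hV.comp_continuousOn (by fun_prop)))
      (ContinuousOn.mul (ContinuousOn.mul ?_ (hV.comp_continuousOn (by fun_prop))) ?_)
    · exact hA.comp (f := fun z : (ℝ × ℝ) × (ℝ × ℝ) => (t - z.1.1, z.1.2))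
        (by fun_prop) fun z hz => ⟨sub_pos.2 hz.2.2, mem_univ _⟩
    · exact gg_cont.comp (f := fun z : (ℝ × ℝ) × (ℝ × ℝ) => (z.1.1 - z.2.1, z.1.2 - z.2.2))
        (by fun_prop) fun z hz => ⟨sub_pos.2 hz.2.1, mem_univ _⟩
    · exact hw.comp (f := fun z : (ℝ × ℝ) × (ℝ × ℝ) => (z.2.1, z.2.2))
        (by fun_prop) fun z hz => ⟨hz.1, mem_univ _⟩
  have hint : Integrable ((U4 t).indicator f) ((nu t).prod (nu t)) := by
    refine ((har_int4 hJ ht s).const_mul (C1 * B * B * C2)).mono'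
      (meas_ind (isOpen_U4 t) hc).aestronglyMeasurable (Eventually.of_forall fun z => ?_)
    by_cases hz : z ∈ U4 t
    · rw [indicator_of_mem hz, indicator_of_mem hz, hf]
      obtain ⟨z1, z2, z3⟩ := hz
      have h3 := hA' (t - z.1.1) ⟨sub_pos.2 z3, by linarith⟩ z.1.2
      have h4 := hw' z.2.1 ⟨z1, z2.trans z3⟩ z.2.2
      have h5 : 0 ≤ C1 * gg (t - z.1.1) (s - z.1.2) := (abs_nonneg _).trans h3
      have h6 : 0 ≤ C2 * J z.2.1 z.2.2 := (abs_nonneg _).trans h4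
      have h7 := gg_pos' (sub_pos.2 z2) (z.1.2 - z.2.2)
      simp only [norm_mul, Real.norm_eq_abs]
      rw [abs_of_pos h7]
      calc |A (t - z.1.1) z.1.2| * |V z.1.2| *
            (gg (z.1.1 - z.2.1) (z.1.2 - z.2.2) * |V z.2.2| * |w z.2.1 z.2.2|) ≤
          C1 * gg (t - z.1.1) (s - z.1.2) * B *
            (gg (z.1.1 - z.2.1) (z.1.2 - z.2.2) * B * (C2 * J z.2.1 z.2.2)) := by
            refine mul_le_mul (mul_le_mul h3 (hB _) (abs_nonneg _) h5)
              (mul_le_mul (mul_le_mul_of_nonneg_left (hB _) h7.le) h4 (abs_nonneg _)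
                (mul_nonneg h7.le hB0)) ?_ (mul_nonneg h5 hB0)
            exact mul_nonneg (mul_nonneg h7.le (abs_nonneg _)) (abs_nonneg _)
        _ = _ := by ring
    · rw [indicator_of_notMem hz, indicator_of_notMem hz]
      simp
  have hF := fub4 (t := t) (F := fun a b => (U4 t).indicator f (a, b)) hint
  have hL : ∫ τ in Ioo 0 t, ∫ x, ∫ ρ in Ioo 0 t, ∫ z, (U4 t).indicator f ((τ, x), (ρ, z)) =
      ∫ τ in Ioo 0 t, ∫ x, A (t - τ) x * V x *
        (∫ ρ in Ioo 0 τ, ∫ z, gg (τ - ρ) (x - z) * V z * w ρ z) := by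
    refine setIntegral_congr_fun measurableSet_Ioo fun τ hτ => ?_
    congr 1
    ext x
    have e1 : ∀ ρ ∈ Ioo 0 t, ∫ z, (U4 t).indicator f ((τ, x), (ρ, z)) =
        (Iio τ).indicator (fun ρ => ∫ z, f ((τ, x), (ρ, z))) ρ := by
      intro ρ hρ
      by_cases h1 : ρ < τ
      · rw [indicator_of_mem (show ρ ∈ Iio τ from h1)]
        congr 1
        ext z
        rw [indicator_of_mem (show ((τ, x), (ρ, z)) ∈ U4 t from ⟨hρ.1, h1, hτ.2⟩)]
      · rw [indicator_of_notMem (show ρ ∉ Iio τ from h1)]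
        have : ∀ z, (U4 t).indicator f ((τ, x), (ρ, z)) = 0 := fun z =>
          indicator_of_notMem (show ((τ, x), (ρ, z)) ∉ U4 t from fun h => h1 h.2.1) _
        simp only [this, integral_zero]
    have e2 : Ioo 0 t ∩ Iio τ = Ioo 0 τ := by
      ext y
      simp only [mem_inter_iff, mem_Iio, mem_Ioo]
      constructor
      · rintro ⟨⟨a, b⟩, c⟩
        exact ⟨a, c⟩
      · rintro ⟨a, b⟩
        exact ⟨⟨a, b.trans hτ.2⟩, b⟩
    rw [setIntegral_congr_fun measurableSet_Ioo e1, setIntegral_indicator measurableSet_Iio, e2,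
      ← integral_const_mul]
    congr 1
    ext ρ
    rw [← integral_const_mul]
  have hR : ∫ ρ in Ioo 0 t, ∫ z, ∫ τ in Ioo 0 t, ∫ x, (U4 t).indicator f ((τ, x), (ρ, z)) =
      ∫ ρ in Ioo 0 t, ∫ z, (∫ τ in Ioo 0 (t - ρ), ∫ x, A (t - ρ - τ) x * V x * gg τ (x - z)) *
        V z * w ρ z := by
    refine setIntegral_congr_fun measurableSet_Ioo fun ρ hρ => ?_
    congr 1
    ext z
    have e1 : ∀ τ ∈ Ioo 0 t, ∫ x, (U4 t).indicator f ((τ, x), (ρ, z)) =
        (Ioi ρ).indicator (fun τ => ∫ x, f ((τ, x), (ρ, z))) τ := by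
      intro τ hτ
      by_cases h1 : ρ < τ
      · rw [indicator_of_mem (show τ ∈ Ioi ρ from h1)]
        congr 1
        ext x
        rw [indicator_of_mem (show ((τ, x), (ρ, z)) ∈ U4 t from ⟨hρ.1, h1, hτ.2⟩)]
      · rw [indicator_of_notMem (show τ ∉ Ioi ρ from h1)]
        have : ∀ x, (U4 t).indicator f ((τ, x), (ρ, z)) = 0 := fun x =>
          indicator_of_notMem (show ((τ, x), (ρ, z)) ∉ U4 t from fun h => h1 h.2.1) _
        simp only [this, integral_zero]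
    have e2 : Ioo 0 t ∩ Ioi ρ = Ioo ρ t := by
      ext y
      simp only [mem_inter_iff, mem_Ioi, mem_Ioo]
      constructor
      · rintro ⟨⟨a, b⟩, c⟩
        exact ⟨c, b⟩
      · rintro ⟨a, b⟩
        exact ⟨⟨hρ.1.trans a, b⟩, a⟩
    rw [setIntegral_congr_fun measurableSet_Ioo e1, setIntegral_indicator measurableSet_Ioi, e2]
    have e3 : ∫ τ in Ioo ρ t, ∫ x, f ((τ, x), (ρ, z)) =
        ∫ τ in Ioo 0 (t - ρ), ∫ x, f ((τ + ρ, x), (ρ, z)) := by
      have e4 := intervalIntegral.integral_comp_add_right (a := 0) (b := t - ρ)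
        (fun τ => ∫ x, f ((τ, x), (ρ, z))) ρ
      rw [zero_add, sub_add_cancel, intervalIntegral.integral_of_le (sub_nonneg.2 hρ.2.le),
        intervalIntegral.integral_of_le hρ.2.le, ← setIntegral_congr_set Ioo_ae_eq_Ioc,
        ← setIntegral_congr_set Ioo_ae_eq_Ioc] at e4
      exact e4.symm
    rw [e3, mul_assoc, ← integral_mul_const]
    congr 1
    ext τ
    rw [← integral_mul_const]
    congr 1
    ext x
    rw [hf]
    simp only
    rw [show t - (τ + ρ) = t - ρ - τ by ring, show τ + ρ - ρ = τ by ring]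
    ring
  rw [← hL, ← hR]
  exact hF

end Pool.Agent.H36.HK
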